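import Pool.Agent.Helper17.Sph.Class

set_option autoImplicit false

namespace Pool.Agent.Helper17.Sph

/-- finite Ramsey theorem for a symmetric relation, bound independent of the type -/
theorem bukh_ramsey (L s : ℕ) : ∃ R : ℕ, ∀ (V : Type) (r : V → V → Prop)
    (_ : ∀ x y, r x y → r y x) (W : Finset V), R ≤ W.card →
    (∃ Q : Finset V, Q ⊆ W ∧ Q.card = L ∧ ∀ x ∈ Q, ∀ y ∈ Q, x ≠ y → r x y) ∨
    (∃ Q : Finset V, Q ⊆ W ∧ Q.card = s ∧ ∀ x ∈ Q, ∀ y ∈ Q, x ≠ y → ¬ r x y) := by
  classical
  induction L generalizing s with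
  | zero =>
    exact ⟨0, fun V r _ W _ => Or.inl ⟨∅, by simp, by simp, by simp⟩⟩
  | succ L ihL =>
    induction s with
    | zero =>
      exact ⟨0, fun V r _ W _ => Or.inr ⟨∅, by simp, by simp, by simp⟩⟩
    | succ s ihs =>
      obtain ⟨R1, h1⟩ := ihL (s + 1)
      obtain ⟨R2, h2⟩ := ihs
      refine ⟨R1 + R2 + 1, fun V r hr W hW => ?_⟩
      have hne : W.Nonempty := by
        rw [← Finset.card_pos]; omega
      obtain ⟨v, hv⟩ := hne
      have hcard : ((W.erase v).filter (fun x => r v x)).card +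
          ((W.erase v).filter (fun x => ¬ r v x)).card = W.card - 1 := by
        rw [Finset.card_filter_add_card_filter_not, Finset.card_erase_of_mem hv]
      by_cases hc : R1 ≤ ((W.erase v).filter (fun x => r v x)).card
      · rcases h1 V r hr _ hc with ⟨Q, hQ, hQc, hQr⟩ | ⟨Q, hQ, hQc, hQr⟩
        · left
          have hvQ : v ∉ Q := fun h => by
            have := hQ h
            simp at this
          refine ⟨insert v Q, ?_, ?_, ?_⟩
          · intro x hx
            rcases Finset.mem_insert.1 hx with rfl | hx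
            · exact hv
            · exact Finset.mem_of_mem_erase (Finset.mem_filter.1 (hQ hx)).1
          · rw [Finset.card_insert_of_notMem hvQ, hQc]
          · intro x hx y hy hxy
            rcases Finset.mem_insert.1 hx with hx' | hx'
            · rcases Finset.mem_insert.1 hy with hy' | hy'
              · exact absurd (hx'.trans hy'.symm) hxy
              · rw [hx']; exact (Finset.mem_filter.1 (hQ hy')).2
            · rcases Finset.mem_insert.1 hy with hy' | hy'
              · rw [hy']; exact hr _ _ (Finset.mem_filter.1 (hQ hx')).2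
              · exact hQr x hx' y hy' hxy
        · right
          refine ⟨Q, ?_, hQc, hQr⟩
          intro x hx
          exact Finset.mem_of_mem_erase (Finset.mem_filter.1 (hQ hx)).1
      · have hc2 : R2 ≤ ((W.erase v).filter (fun x => ¬ r v x)).card := by omega
        rcases h2 V r hr _ hc2 with ⟨Q, hQ, hQc, hQr⟩ | ⟨Q, hQ, hQc, hQr⟩
        · left
          refine ⟨Q, ?_, hQc, hQr⟩
          intro x hx
          exact Finset.mem_of_mem_erase (Finset.mem_filter.1 (hQ hx)).1
        · right
          have hvQ : v ∉ Q := fun h => by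
            have := hQ h
            simp at this
          refine ⟨insert v Q, ?_, ?_, ?_⟩
          · intro x hx
            rcases Finset.mem_insert.1 hx with rfl | hx
            · exact hv
            · exact Finset.mem_of_mem_erase (Finset.mem_filter.1 (hQ hx)).1
          · rw [Finset.card_insert_of_notMem hvQ, hQc]
          · intro x hx y hy hxy
            rcases Finset.mem_insert.1 hx with hx' | hx'
            · rcases Finset.mem_insert.1 hy with hy' | hy'
              · exact absurd (hx'.trans hy'.symm) hxy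
              · rw [hx']; exact (Finset.mem_filter.1 (hQ hy')).2
            · rcases Finset.mem_insert.1 hy with hy' | hy'
              · rw [hy']; exact fun h => (Finset.mem_filter.1 (hQ hx')).2 (hr _ _ h)
              · exact hQr x hx' y hy' hxy

theorem IsBukh.subset {d : ℕ} {ν a b : ℝ} {Y Z : Finset (EuclideanSpace ℝ (Fin d))}
    (h : IsBukh ν a b Y) (hZ : Z ⊆ Y) : IsBukh ν a b Z :=
  ⟨fun y hy => h.1 y (hZ hy), fun y hy z hz hyz => h.2 y (hZ hy) z (hZ hz) hyz⟩

/-- pairwise non-adjacent sets are small -/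
theorem bukh_nonadj_card {d : ℕ} {ν b : ℝ} (hb : 0 < b) (hν0 : 0 ≤ ν)
    (Z : Finset (EuclideanSpace ℝ (Fin d))) (h1 : ∀ y ∈ Z, ‖y‖ ^ 2 = ν)
    (h2 : ∀ y ∈ Z, ∀ z ∈ Z, y ≠ z → inner ℝ y z ≤ -b) : (Z.card : ℝ) ≤ 1 + ν / b := by
  classical
  rcases Z.eq_empty_or_nonempty with rfl | hne
  · simp only [Finset.card_empty, Nat.cast_zero]
    positivity
  have h3 : (0 : ℝ) ≤ inner ℝ (∑ y ∈ Z, y) (∑ z ∈ Z, z) := real_inner_self_nonneg
  rw [sum_inner] at h3
  have h4 : ∀ y ∈ Z, inner ℝ y (∑ z ∈ Z, z) ≤ ν - ((Z.card : ℝ) - 1) * b := by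
    intro y hy
    rw [inner_sum, ← Finset.add_sum_erase Z _ hy]
    have h5 : inner ℝ y y = ν := by rw [real_inner_self_eq_norm_sq]; exact h1 y hy
    have h6 : ∑ z ∈ Z.erase y, inner ℝ y z ≤ ∑ z ∈ Z.erase y, (-b) :=
      Finset.sum_le_sum (fun z hz => h2 y hy z (Finset.mem_of_mem_erase hz)
        (Finset.ne_of_mem_erase hz).symm)
    rw [Finset.sum_const, Finset.card_erase_of_mem hy, nsmul_eq_mul,
      Nat.cast_sub (Finset.card_pos.2 hne), Nat.cast_one] at h6
    rw [h5]
    linarith
  have h7 := h3.trans (Finset.sum_le_sum h4)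
  rw [Finset.sum_const, nsmul_eq_mul] at h7
  have hpos : (0 : ℝ) < Z.card := by exact_mod_cast Finset.card_pos.2 hne
  have h8 : 0 ≤ ν - ((Z.card : ℝ) - 1) * b := by
    by_contra hcon
    push Not at hcon
    have := mul_neg_of_pos_of_neg hpos hcon
    linarith
  have h9 : ((Z.card : ℝ) - 1) ≤ ν / b := by
    rw [le_div_iff₀ hb]; linarith
  linarith

/-- the induction on the size of pairwise non-adjacent sets -/
theorem bukh_aux (ν a b : ℝ) (ha : 0 < a) (hb : 0 < b) (hν : a < ν) (t : ℕ) :
    ∃ C : ℝ, 0 < C ∧ ∀ (d : ℕ) (Y : Finset (EuclideanSpace ℝ (Fin d))),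
      IsBukh ν a b Y →
      (∀ Z : Finset (EuclideanSpace ℝ (Fin d)), Z ⊆ Y →
        (∀ y ∈ Z, ∀ z ∈ Z, y ≠ z → ¬ inner ℝ y z = a) → Z.card ≤ t) →
      (Y.card : ℝ) ≤ C * ((d : ℝ) + 1) := by
  classical
  induction t with
  | zero =>
    refine ⟨1, one_pos, fun d Y hY hZ => ?_⟩
    have : Y = ∅ := by
      by_contra hne
      obtain ⟨y, hy⟩ := Finset.nonempty_iff_ne_empty.2 hne
      have := hZ {y} (by simpa using hy) (by
        intro u hu v hv huv
        rw [Finset.mem_singleton] at hu hv
        exact absurd (hu.trans hv.symm) huv)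
      simp at this
    rw [this, Finset.card_empty, Nat.cast_zero]
    positivity
  | succ t ih =>
    obtain ⟨C, hC, hI⟩ := ih
    obtain ⟨L, C2, hC2, hcl⟩ := class_bound ν a b ha hb hν
    obtain ⟨R, hR⟩ := bukh_ramsey L (t + 2)
    set W0 : ℕ := (t + 1) * R + t + 2 with hW0
    refine ⟨W0 + 2 ^ W0 * C2 + C, by positivity, fun d Y hY hZ => ?_⟩
    have hd1 : (1 : ℝ) ≤ (d : ℝ) + 1 := by
      have : (0 : ℝ) ≤ d := Nat.cast_nonneg d
      linarith
    by_cases hcard : Y.card < W0
    · have h1 : (Y.card : ℝ) ≤ W0 := by exact_mod_cast hcard.le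
      have h2 : (W0 : ℝ) ≤ (W0 + 2 ^ W0 * C2 + C) * ((d : ℝ) + 1) := by
        have h3 : (W0 : ℝ) ≤ W0 + 2 ^ W0 * C2 + C := by
          have : 0 ≤ (2 : ℝ) ^ W0 * C2 := by positivity
          linarith
        have h4 : (W0 + 2 ^ W0 * C2 + C) * 1 ≤ (W0 + 2 ^ W0 * C2 + C) * ((d : ℝ) + 1) :=
          mul_le_mul_of_nonneg_left hd1 (by positivity)
        linarith
      exact h1.trans h2
    · push Not at hcard
      obtain ⟨W, hWY, hWc⟩ := Finset.exists_subset_card_eq hcard
      have hsymm : ∀ x y : EuclideanSpace ℝ (Fin d), inner ℝ x y = a → inner ℝ y x = a := by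
        intro x y h; rw [real_inner_comm]; exact h
      -- part (i)
      let A : Finset (EuclideanSpace ℝ (Fin d)) :=
        (Y \ W).filter (fun y => R ≤ (W.filter (fun w => inner ℝ y w = a)).card)
      let B : Finset (EuclideanSpace ℝ (Fin d)) :=
        (Y \ W).filter (fun y => ¬ R ≤ (W.filter (fun w => inner ℝ y w = a)).card)
      let QS : Finset (Finset (EuclideanSpace ℝ (Fin d))) :=
        W.powerset.filter (fun Q => Q.card = L ∧ ∀ x ∈ Q, ∀ y ∈ Q, x ≠ y → inner ℝ x y = a)
      let YQ : Finset (EuclideanSpace ℝ (Fin d)) → Finset (EuclideanSpace ℝ (Fin d)) :=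
        fun Q => (Y \ W).filter (fun y => ∀ q ∈ Q, inner ℝ y q = a)
      have hAsub : A ⊆ QS.biUnion YQ := by
        intro y hy
        have hy1 : y ∈ Y \ W := (Finset.mem_filter.1 hy).1
        have hy2 := (Finset.mem_filter.1 hy).2
        rcases hR _ (fun x y : EuclideanSpace ℝ (Fin d) => inner ℝ x y = a) hsymm _ hy2 with
          ⟨Q, hQ, hQc, hQr⟩ | ⟨Q, hQ, hQc, hQr⟩
        · refine Finset.mem_biUnion.2 ⟨Q, ?_, ?_⟩
          · refine Finset.mem_filter.2 ⟨Finset.mem_powerset.2 ?_, hQc, hQr⟩
            intro x hx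
            exact (Finset.mem_filter.1 (hQ hx)).1
          · exact Finset.mem_filter.2 ⟨hy1, fun q hq => (Finset.mem_filter.1 (hQ hq)).2⟩
        · exfalso
          have := hZ Q (fun x hx => hWY (Finset.mem_filter.1 (hQ hx)).1) hQr
          omega
      have hYQ : ∀ Q ∈ QS, ((YQ Q).card : ℝ) ≤ C2 * ((d : ℝ) + 1) := by
        intro Q hQ
        obtain ⟨hQW, hQc, hQr⟩ := Finset.mem_filter.1 hQ
        rw [Finset.mem_powerset] at hQW
        refine hcl d (YQ Q) Q (hY.subset ?_) (hY.subset (hQW.trans hWY)) hQc ?_ hQr ?_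
        · intro x hx
          exact (Finset.mem_sdiff.1 (Finset.mem_filter.1 hx).1).1
        · rw [Finset.disjoint_left]
          intro x hx hxQ
          exact (Finset.mem_sdiff.1 (Finset.mem_filter.1 hx).1).2 (hQW hxQ)
        · intro y hy q hq
          exact (Finset.mem_filter.1 hy).2 q hq
      have hQScard : (QS.card : ℝ) ≤ 2 ^ W0 := by
        have h1 : QS.card ≤ W.powerset.card := Finset.card_filter_le _ _
        rw [Finset.card_powerset, hWc] at h1
        exact_mod_cast h1
      have hA : (A.card : ℝ) ≤ 2 ^ W0 * C2 * ((d : ℝ) + 1) := by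
        have h1 : A.card ≤ ∑ Q ∈ QS, (YQ Q).card :=
          (Finset.card_le_card hAsub).trans Finset.card_biUnion_le
        have h2 : (A.card : ℝ) ≤ ∑ Q ∈ QS, ((YQ Q).card : ℝ) := by exact_mod_cast h1
        refine h2.trans ((Finset.sum_le_sum hYQ).trans ?_)
        rw [Finset.sum_const, nsmul_eq_mul, mul_assoc]
        exact mul_le_mul_of_nonneg_right hQScard (by positivity)
      -- part (ii)
      have hBY : B ⊆ Y := fun x hx => (Finset.mem_sdiff.1 (Finset.mem_filter.1 hx).1).1
      have hB : (B.card : ℝ) ≤ C * ((d : ℝ) + 1) := by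
        refine hI d B (hY.subset hBY) (fun Z hZB hZr => ?_)
        by_contra hcon
        push Not at hcon
        obtain ⟨Z', hZ'Z, hZ'c⟩ := Finset.exists_subset_card_eq (n := t + 1) hcon
        have hZ'B : Z' ⊆ B := hZ'Z.trans hZB
        -- a vertex of W not adjacent to any element of Z'
        have hex : ∃ w ∈ W, ∀ z ∈ Z', ¬ inner ℝ z w = a := by
          by_contra hno
          push Not at hno
          have hsub : W ⊆ Z'.biUnion (fun z => W.filter (fun w => inner ℝ z w = a)) := by
            intro w hw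
            obtain ⟨z, hz, hzw⟩ := hno w hw
            exact Finset.mem_biUnion.2 ⟨z, hz, Finset.mem_filter.2 ⟨hw, hzw⟩⟩
          have h1 : W.card ≤ Z'.card * R := by
            refine (Finset.card_le_card hsub).trans ?_
            refine Finset.card_biUnion_le_card_mul _ _ _ (fun z hz => ?_)
            have := (Finset.mem_filter.1 (hZ'B hz)).2
            omega
          rw [hWc, hZ'c, hW0] at h1
          omega
        obtain ⟨w, hwW, hwZ⟩ := hex
        have hwZ' : w ∉ Z' := fun h =>
          (Finset.mem_sdiff.1 (Finset.mem_filter.1 (hZ'B h)).1).2 hwW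
        have := hZ (insert w Z') (by
          intro x hx
          rcases Finset.mem_insert.1 hx with rfl | hx
          · exact hWY hwW
          · exact hBY (hZ'B hx)) (by
          intro y hy z hz hyz
          rcases Finset.mem_insert.1 hy with hy' | hy'
          · rcases Finset.mem_insert.1 hz with hz' | hz'
            · exact absurd (hy'.trans hz'.symm) hyz
            · intro h; rw [hy'] at h; exact hwZ z hz' (hsymm _ _ h)
          · rcases Finset.mem_insert.1 hz with hz' | hz'
            · rw [hz']; exact hwZ y hy'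
            · exact hZr y (hZ'Z hy') z (hZ'Z hz') hyz)
        rw [Finset.card_insert_of_notMem hwZ', hZ'c] at this
        omega
      have hsplit : Y.card = W.card + (A.card + B.card) := by
        have h1 : A.card + B.card = (Y \ W).card := Finset.card_filter_add_card_filter_not _
        have h2 : (Y \ W).card + W.card = Y.card := Finset.card_sdiff_add_card_eq_card hWY
        omega
      have hYc : (Y.card : ℝ) = W0 + (A.card + B.card) := by
        rw [hsplit, hWc]; push_cast; ring
      rw [hYc]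
      have h5 : (W0 : ℝ) * 1 ≤ W0 * ((d : ℝ) + 1) :=
        mul_le_mul_of_nonneg_left hd1 (Nat.cast_nonneg _)
      calc (W0 : ℝ) + (A.card + B.card) ≤ W0 * ((d : ℝ) + 1) +
            (2 ^ W0 * C2 * ((d : ℝ) + 1) + C * ((d : ℝ) + 1)) := by linarith
        _ = (W0 + 2 ^ W0 * C2 + C) * ((d : ℝ) + 1) := by ring

/-- (B) Bukh's theorem. -/
theorem bukh (ν a b : ℝ) (ha : 0 < a) (hb : 0 < b) (hν : a < ν) :
    ∃ C : ℝ, 0 < C ∧ ∀ (d : ℕ) (Y : Finset (EuclideanSpace ℝ (Fin d))),
      IsBukh ν a b Y → (Y.card : ℝ) ≤ C * ((d : ℝ) + 1) := by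
  obtain ⟨C, hC, h⟩ := bukh_aux ν a b ha hb hν ⌈1 + ν / b⌉₊
  refine ⟨C, hC, fun d Y hY => h d Y hY (fun Z hZY hZ => ?_)⟩
  have h1 := bukh_nonadj_card (ν := ν) hb (ha.trans hν).le Z (fun y hy => hY.1 y (hZY hy)) (fun y hy z hz hyz => by
    rcases hY.2 y (hZY hy) z (hZY hz) hyz with h | h
    · exact absurd h (hZ y hy z hz hyz)
    · exact h)
  exact_mod_cast h1.trans (Nat.le_ceil _)

end Pool.Agent.Helper17.Sph
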