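import Mathlib

set_option autoImplicit false

namespace Pool.Agent.Helper17.Sph

/-- `Y` is a finite set of vectors of squared norm `ν` with inner products `a` or `≤ -b`. -/
def IsBukh {d : ℕ} (ν a b : ℝ) (Y : Finset (EuclideanSpace ℝ (Fin d))) : Prop :=
  (∀ y ∈ Y, ‖y‖ ^ 2 = ν) ∧ ∀ y ∈ Y, ∀ z ∈ Y, y ≠ z → (inner ℝ y z = a ∨ inner ℝ y z ≤ -b)

end Pool.Agent.Helper17.Sph
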