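import Mathlib

set_option autoImplicit false

namespace Pool.Agent.Helper17.Sph

open Matrix

/-- trace squared is at most rank times the squared Frobenius norm, for a real symmetric matrix -/
theorem trace_sq_le_rank_mul {ι : Type} [Fintype ι] (M : Matrix ι ι ℝ) (hM : M.IsHermitian) :
    M.trace ^ 2 ≤ (M.rank : ℝ) * ∑ i, ∑ j, (M i j) ^ 2 := by
  classical
  have h1 : M.trace = ∑ i, hM.eigenvalues i := by
    have := hM.trace_eq_sum_eigenvalues
    simpa using this
  have h2 : ∑ i, ∑ j, (M i j) ^ 2 = (M * M).trace := by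
    rw [Matrix.trace]
    refine Finset.sum_congr rfl fun i _ => ?_
    rw [Matrix.diag_apply, Matrix.mul_apply]
    refine Finset.sum_congr rfl fun j _ => ?_
    have : M j i = M i j := by
      have := hM.apply i j
      simpa using this
    rw [this, sq]
  have h3 : (M * M).trace = ∑ i, (hM.eigenvalues i) ^ 2 := by
    have hs := hM.spectral_theorem
    have hmm : M * M = Unitary.conjStarAlgAut ℝ _ hM.eigenvectorUnitary
        (diagonal (RCLike.ofReal ∘ hM.eigenvalues) * diagonal (RCLike.ofReal ∘ hM.eigenvalues)) := by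
      rw [map_mul, ← hs]
    rw [hmm, Unitary.conjStarAlgAut_apply, Matrix.trace_mul_cycle, ← mul_assoc]
    have hu : (star (hM.eigenvectorUnitary : Matrix ι ι ℝ)) * (hM.eigenvectorUnitary : Matrix ι ι ℝ) = 1 :=
      Unitary.coe_star_mul_self _
    rw [hu, one_mul, diagonal_mul_diagonal, trace_diagonal]
    refine Finset.sum_congr rfl fun i _ => ?_
    simp [sq]
  rw [h2, h3, h1]
  have h4 : ∑ i, hM.eigenvalues i = ∑ i ∈ Finset.univ.filter (fun i => hM.eigenvalues i ≠ 0), hM.eigenvalues i := by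
    rw [Finset.sum_filter_ne_zero]
  have h5 : ∑ i, (hM.eigenvalues i) ^ 2 =
      ∑ i ∈ Finset.univ.filter (fun i => hM.eigenvalues i ≠ 0), (hM.eigenvalues i) ^ 2 := by
    refine (Finset.sum_subset (Finset.subset_univ _) ?_).symm
    intro i _ hi
    have : hM.eigenvalues i = 0 := by
      by_contra h
      exact hi (Finset.mem_filter.mpr ⟨Finset.mem_univ _, h⟩)
    rw [this]; norm_num
  have h6 : (M.rank : ℝ) = ((Finset.univ.filter (fun i => hM.eigenvalues i ≠ 0)).card : ℝ) := by
    rw [hM.rank_eq_card_non_zero_eigs, Fintype.card_subtype]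
  rw [h4, h5, h6]
  exact sq_sum_le_card_mul_sum_sq

theorem inner_eq_sum {d : ℕ} (x y : EuclideanSpace ℝ (Fin d)) :
    (inner ℝ x y : ℝ) = ∑ k, x k * y k := by
  rw [PiLp.inner_apply]
  refine Finset.sum_congr rfl fun k _ => ?_
  simp [mul_comm]

/-- (F') the rank inequality for `Gram(v) - a J`, rank at most `d + 1`. -/
theorem frob' {ι : Type} [Fintype ι] {d : ℕ} (v : ι → EuclideanSpace ℝ (Fin d)) (a : ℝ) (_ha : 0 ≤ a) :
    (∑ i, (‖v i‖ ^ 2 - a)) ^ 2 ≤ ((d : ℝ) + 1) * ∑ i, ∑ j, (inner ℝ (v i) (v j) - a) ^ 2 := by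
  classical
  let M : Matrix ι ι ℝ := Matrix.of fun i j => inner ℝ (v i) (v j) - a
  let P : Matrix ι (Fin d ⊕ Unit) ℝ := Matrix.of fun i k => Sum.elim (fun k => v i k) (fun _ => 1) k
  let Q : Matrix (Fin d ⊕ Unit) ι ℝ := Matrix.of fun k j => Sum.elim (fun k => v j k) (fun _ => -a) k
  have hMPQ : M = P * Q := by
    ext i j
    rw [Matrix.mul_apply, Fintype.sum_sum_type]
    simp only [M, P, Q, Matrix.of_apply, Sum.elim_inl, Sum.elim_inr, Finset.univ_unique,
      Finset.sum_singleton, one_mul]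
    rw [inner_eq_sum]
    ring
  have hM : M.IsHermitian := by
    ext i j
    simp only [M, Matrix.conjTranspose_apply, Matrix.of_apply, star_trivial]
    rw [real_inner_comm]
  have hr : (M.rank : ℝ) ≤ (d : ℝ) + 1 := by
    have h1 : M.rank ≤ Fintype.card (Fin d ⊕ Unit) := by
      rw [hMPQ]
      exact (Matrix.rank_mul_le_left P Q).trans (Matrix.rank_le_card_width P)
    have h2 : Fintype.card (Fin d ⊕ Unit) = d + 1 := by simp
    rw [h2] at h1
    exact_mod_cast h1
  have ht : M.trace = ∑ i, (‖v i‖ ^ 2 - a) := by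
    rw [Matrix.trace]
    refine Finset.sum_congr rfl fun i _ => ?_
    simp only [M, Matrix.diag_apply, Matrix.of_apply]
    rw [real_inner_self_eq_norm_sq]
  have h := trace_sq_le_rank_mul M hM
  rw [ht] at h
  refine h.trans ?_
  refine mul_le_mul_of_nonneg_right hr ?_
  exact Finset.sum_nonneg fun i _ => Finset.sum_nonneg fun j _ => sq_nonneg _

/-- (F) `(∑ |v|²)² ≤ d ∑ ⟨v_i, v_j⟩²`. -/
theorem frob {ι : Type} [Fintype ι] {d : ℕ} (v : ι → EuclideanSpace ℝ (Fin d)) :
    (∑ i, ‖v i‖ ^ 2) ^ 2 ≤ (d : ℝ) * ∑ i, ∑ j, (inner ℝ (v i) (v j)) ^ 2 := by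
  classical
  let M : Matrix ι ι ℝ := Matrix.of fun i j => inner ℝ (v i) (v j)
  let P : Matrix ι (Fin d) ℝ := Matrix.of fun i k => v i k
  let Q : Matrix (Fin d) ι ℝ := Matrix.of fun k j => v j k
  have hMPQ : M = P * Q := by
    ext i j
    rw [Matrix.mul_apply]
    simp only [M, P, Q, Matrix.of_apply]
    rw [inner_eq_sum]
  have hM : M.IsHermitian := by
    ext i j
    simp only [M, Matrix.conjTranspose_apply, Matrix.of_apply, star_trivial]
    rw [real_inner_comm]
  have hr : (M.rank : ℝ) ≤ (d : ℝ) := by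
    have h1 : M.rank ≤ Fintype.card (Fin d) := by
      rw [hMPQ]
      exact (Matrix.rank_mul_le_left P Q).trans (Matrix.rank_le_card_width P)
    rw [Fintype.card_fin] at h1
    exact_mod_cast h1
  have ht : M.trace = ∑ i, ‖v i‖ ^ 2 := by
    rw [Matrix.trace]
    refine Finset.sum_congr rfl fun i _ => ?_
    simp only [M, Matrix.diag_apply, Matrix.of_apply]
    rw [real_inner_self_eq_norm_sq]
  have h := trace_sq_le_rank_mul M hM
  rw [ht] at h
  refine h.trans ?_
  refine mul_le_mul_of_nonneg_right hr ?_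
  exact Finset.sum_nonneg fun i _ => Finset.sum_nonneg fun j _ => sq_nonneg _

end Pool.Agent.Helper17.Sph
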