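import Mathlib
import Pool.Agent.Helper17.Sph.Defs
import Pool.Agent.Helper17.Sph.Frob

set_option autoImplicit false

namespace Pool.Agent.Helper17.Sph

/-- the number of non-neighbours of `y` -/
theorem nonadj_bound {d : ℕ} (ν a b e : ℝ) (ha : 0 < a) (hb : 0 < b) (hν : a < ν) (L : ℕ) (hL : 1 ≤ L)
    (heta : a * (ν - a) ≤ e * (ν + ((L : ℝ) - 1) * a)) (he : e ≤ a / 2)
    (he2 : e ≤ (b + a / 2) ^ 2 / (2 * ν))
    (Q Z : Finset (EuclideanSpace ℝ (Fin d))) (y : EuclideanSpace ℝ (Fin d))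
    (hQ : ∀ q ∈ Q, ‖q‖ ^ 2 = ν) (hQc : Q.card = L)
    (hQQ : ∀ y ∈ Q, ∀ z ∈ Q, y ≠ z → inner ℝ y z = a)
    (hy : ‖y‖ ^ 2 = ν) (hyQ : ∀ q ∈ Q, inner ℝ y q = a)
    (hZ : ∀ z ∈ Z, ‖z‖ ^ 2 = ν) (hZQ : ∀ z ∈ Z, ∀ q ∈ Q, inner ℝ z q = a)
    (hZZ : ∀ z ∈ Z, ∀ z' ∈ Z, z ≠ z' → inner ℝ z z' ≤ a)
    (hyZ : ∀ z ∈ Z, inner ℝ y z ≤ -b) :
    (Z.card : ℝ) ≤ 2 * ν ^ 2 / (b + a / 2) ^ 2 := by
  classical
  have hν0 : 0 < ν := ha.trans hν
  set g : ℝ := b + a / 2 with hg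
  have hg0 : 0 < g := by positivity
  set l : ℝ := (Z.card : ℝ) with hl
  have hl0 : 0 ≤ l := by positivity
  have hL1 : (1 : ℝ) ≤ (L : ℝ) := by exact_mod_cast hL
  set W : ℝ := ν + ((L : ℝ) - 1) * a with hW
  have hW0 : 0 < W := by
    have : 0 ≤ ((L : ℝ) - 1) * a := mul_nonneg (by linarith) ha.le
    linarith
  set s : EuclideanSpace ℝ (Fin d) := ∑ q ∈ Q, q with hs
  have hss : inner ℝ s s = (L : ℝ) * W := by
    have h1 : inner ℝ s s = ∑ q ∈ Q, ∑ q' ∈ Q, inner ℝ q q' := by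
      rw [hs, sum_inner]
      exact Finset.sum_congr rfl fun q _ => inner_sum _ _ _
    rw [h1]
    have h2 : ∀ q ∈ Q, ∑ q' ∈ Q, inner ℝ q q' = W := by
      intro q hq
      rw [← Finset.add_sum_erase _ _ hq]
      have h3 : ∑ q' ∈ Q.erase q, inner ℝ q q' = ∑ _q' ∈ Q.erase q, a := by
        apply Finset.sum_congr rfl
        intro q' hq'
        rw [Finset.mem_erase] at hq'
        exact hQQ q hq q' hq'.2 (Ne.symm hq'.1)
      rw [h3, Finset.sum_const, Finset.card_erase_of_mem hq, hQc, real_inner_self_eq_norm_sq, hQ q hq,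
        nsmul_eq_mul, Nat.cast_sub hL, Nat.cast_one]
    rw [Finset.sum_congr rfl h2, Finset.sum_const, hQc, nsmul_eq_mul]
  set lam : ℝ := l * g / ν with hlam
  have hlam0 : 0 ≤ lam := by positivity
  set u : EuclideanSpace ℝ (Fin d) := lam • y + ∑ z ∈ Z, z with hu
  have hus : inner ℝ u s = (lam + l) * ((L : ℝ) * a) := by
    have h1 : ∀ w : EuclideanSpace ℝ (Fin d), (∀ q ∈ Q, inner ℝ w q = a) → inner ℝ w s = (L : ℝ) * a := by
      intro w hw
      rw [hs, inner_sum, Finset.sum_congr rfl hw, Finset.sum_const, hQc, nsmul_eq_mul]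
    rw [hu, inner_add_left, inner_smul_left, h1 y hyQ, sum_inner,
      Finset.sum_congr rfl (fun z hz => h1 z (hZQ z hz)), Finset.sum_const, nsmul_eq_mul]
    simp only [conj_trivial]
    ring
  have huu : inner ℝ u u ≤ lam ^ 2 * ν - 2 * lam * l * b + l * ν + l * (l - 1) * a := by
    have h1 : inner ℝ u u = lam ^ 2 * inner ℝ y y + 2 * lam * (∑ z ∈ Z, inner ℝ y z)
        + ∑ z ∈ Z, ∑ z' ∈ Z, inner ℝ z z' := by
      rw [hu, inner_add_left, inner_add_right, inner_add_right, inner_smul_left, inner_smul_right,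
        inner_smul_left, inner_smul_right, inner_sum, sum_inner, sum_inner]
      have h2 : ∑ z ∈ Z, inner ℝ z y = ∑ z ∈ Z, inner ℝ y z :=
        Finset.sum_congr rfl fun z _ => real_inner_comm _ _
      have h3 : ∑ z ∈ Z, inner ℝ z (∑ z' ∈ Z, z') = ∑ z ∈ Z, ∑ z' ∈ Z, inner ℝ z z' :=
        Finset.sum_congr rfl fun z _ => inner_sum _ _ _
      rw [h2, h3]
      simp only [conj_trivial]
      ring
    have h2 : ∑ z ∈ Z, inner ℝ y z ≤ l * (-b) := by
      calc ∑ z ∈ Z, inner ℝ y z ≤ ∑ _z ∈ Z, (-b) := Finset.sum_le_sum hyZ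
        _ = l * (-b) := by rw [Finset.sum_const, nsmul_eq_mul]
    have h3 : ∑ z ∈ Z, ∑ z' ∈ Z, inner ℝ z z' ≤ l * (ν + (l - 1) * a) := by
      have h4 : ∀ z ∈ Z, ∑ z' ∈ Z, inner ℝ z z' ≤ ν + (l - 1) * a := by
        intro z hz
        rw [← Finset.add_sum_erase _ _ hz, real_inner_self_eq_norm_sq, hZ z hz]
        have h5 : ∑ z' ∈ Z.erase z, inner ℝ z z' ≤ ∑ _z' ∈ Z.erase z, a := by
          apply Finset.sum_le_sum
          intro z' hz'
          rw [Finset.mem_erase] at hz'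
          exact hZZ z hz z' hz'.2 (Ne.symm hz'.1)
        have h6 : ∑ _z' ∈ Z.erase z, a = (l - 1) * a := by
          have h7 : 1 ≤ Z.card := Finset.card_pos.2 ⟨z, hz⟩
          rw [Finset.sum_const, Finset.card_erase_of_mem hz, nsmul_eq_mul, Nat.cast_sub h7, Nat.cast_one]
        linarith
      calc ∑ z ∈ Z, ∑ z' ∈ Z, inner ℝ z z' ≤ ∑ _z ∈ Z, (ν + (l - 1) * a) := Finset.sum_le_sum h4
        _ = l * (ν + (l - 1) * a) := by rw [Finset.sum_const, nsmul_eq_mul]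
    rw [h1, real_inner_self_eq_norm_sq, hy]
    have h4 : 2 * lam * (∑ z ∈ Z, inner ℝ y z) ≤ 2 * lam * (l * (-b)) :=
      mul_le_mul_of_nonneg_left h2 (by positivity)
    nlinarith
  have hCS : inner ℝ u s * inner ℝ u s ≤ inner ℝ u u * inner ℝ s s := real_inner_mul_inner_self_le u s
  rw [hus, hss] at hCS
  have hLa : (L : ℝ) * a ^ 2 = a * W - a * (ν - a) := by rw [hW]; ring
  have hL0 : (0 : ℝ) < (L : ℝ) := by linarith
  have h1 : (lam + l) ^ 2 * ((L : ℝ) * a ^ 2) ≤ inner ℝ u u * W := by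
    have h2 : (L : ℝ) * ((lam + l) ^ 2 * ((L : ℝ) * a ^ 2)) ≤ (L : ℝ) * (inner ℝ u u * W) := by
      calc (L : ℝ) * ((lam + l) ^ 2 * ((L : ℝ) * a ^ 2))
          = (lam + l) * ((L : ℝ) * a) * ((lam + l) * ((L : ℝ) * a)) := by ring
        _ ≤ inner ℝ u u * ((L : ℝ) * W) := hCS
        _ = (L : ℝ) * (inner ℝ u u * W) := by ring
    exact le_of_mul_le_mul_left h2 hL0
  have h2 : (a - e) * W ≤ (L : ℝ) * a ^ 2 := by
    rw [hLa]; nlinarith
  have h3 : (lam + l) ^ 2 * (a - e) ≤ inner ℝ u u := by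
    have h4 : ((lam + l) ^ 2 * (a - e)) * W ≤ inner ℝ u u * W := by
      calc ((lam + l) ^ 2 * (a - e)) * W = (lam + l) ^ 2 * ((a - e) * W) := by ring
        _ ≤ (lam + l) ^ 2 * ((L : ℝ) * a ^ 2) := mul_le_mul_of_nonneg_left h2 (by positivity)
        _ ≤ inner ℝ u u * W := h1
    exact le_of_mul_le_mul_right h4 hW0
  have h4 : 0 ≤ lam ^ 2 * ν - 2 * lam * l * g + l * ν + l ^ 2 * e := by
    have h5 : (lam + l) ^ 2 * (a - e) ≤ lam ^ 2 * ν - 2 * lam * l * b + l * ν + l * (l - 1) * a :=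
      h3.trans huu
    have h6 : lam ^ 2 * (a - e) ≥ 0 := mul_nonneg (by positivity) (by linarith)
    have h7 : lam * l * (a - e) ≥ lam * l * (a / 2) :=
      mul_le_mul_of_nonneg_left (by linarith) (by positivity)
    have h8 : 0 ≤ l * a := by positivity
    have h9 : g = b + a / 2 := hg
    nlinarith
  have h5 : lam * ν = l * g := by rw [hlam]; field_simp
  have h6 : e * (2 * ν) ≤ g ^ 2 := by
    rw [le_div_iff₀ (by positivity)] at he2
    exact he2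
  have h7 : 0 ≤ l * (2 * ν ^ 2 - l * g ^ 2) := by
    have h8 : 0 ≤ (lam ^ 2 * ν - 2 * lam * l * g + l * ν + l ^ 2 * e) * (2 * ν) :=
      mul_nonneg h4 (by positivity)
    have h9 : (lam ^ 2 * ν - 2 * lam * l * g + l * ν + l ^ 2 * e) * (2 * ν)
        = 2 * (lam * ν) ^ 2 - 4 * (lam * ν) * l * g + 2 * l * ν ^ 2 + l ^ 2 * (e * (2 * ν)) := by ring
    rw [h9, h5] at h8
    have h10 : l ^ 2 * (e * (2 * ν)) ≤ l ^ 2 * g ^ 2 := mul_le_mul_of_nonneg_left h6 (by positivity)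
    nlinarith
  rw [le_div_iff₀ (by positivity)]
  rcases hl0.eq_or_lt with h0 | h0
  · rw [← h0]; simp; positivity
  · have := nonneg_of_mul_nonneg_right h7 h0
    linarith

/-- (4) vectors adjacent to a large clique. -/
theorem class_bound (ν a b : ℝ) (ha : 0 < a) (hb : 0 < b) (hν : a < ν) :
    ∃ L : ℕ, ∃ C : ℝ, 0 < C ∧ ∀ (d : ℕ) (Y Q : Finset (EuclideanSpace ℝ (Fin d))),
      IsBukh ν a b Y → IsBukh ν a b Q → Q.card = L → Disjoint Y Q →
      (∀ y ∈ Q, ∀ z ∈ Q, y ≠ z → inner ℝ y z = a) →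
      (∀ y ∈ Y, ∀ q ∈ Q, inner ℝ y q = a) →
      (Y.card : ℝ) ≤ C * ((d : ℝ) + 1) := by
  classical
  have hν0 : 0 < ν := ha.trans hν
  set g : ℝ := b + a / 2 with hg
  have hg0 : 0 < g := by positivity
  set e : ℝ := min (a / 2) (g ^ 2 / (2 * ν)) with he
  have he0 : 0 < e := lt_min (by positivity) (by positivity)
  set L : ℕ := ⌈(ν - a) / e⌉₊ + 1 with hL
  set D : ℝ := 2 * ν ^ 2 / g ^ 2 with hD
  have hD0 : 0 < D := by positivity
  have hνa : 0 < ν - a := by linarith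
  have hL2 : (ν - a) ≤ e * ((L : ℝ) - 1) := by
    have h1 : (ν - a) / e ≤ (⌈(ν - a) / e⌉₊ : ℝ) := Nat.le_ceil _
    rw [div_le_iff₀ he0] at h1
    rw [hL]
    push_cast
    linarith
  have heta : a * (ν - a) ≤ e * (ν + ((L : ℝ) - 1) * a) := by
    have h1 : 0 ≤ e * ν := by positivity
    nlinarith
  refine ⟨L, ((ν - a) ^ 2 + D * (ν + a) ^ 2) / (ν - a) ^ 2, by positivity, ?_⟩
  intro d Y Q hY hQ hQc _ hQQ hYQ
  have hdeg : ∀ y ∈ Y, ((Y.filter (fun z => z ≠ y ∧ inner ℝ y z ≠ a)).card : ℝ) ≤ D := by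
    intro y hy
    apply nonadj_bound ν a b e ha hb hν L (by omega) heta (min_le_left _ _) (min_le_right _ _) Q
      (Y.filter (fun z => z ≠ y ∧ inner ℝ y z ≠ a)) y hQ.1 hQc hQQ (hY.1 y hy) (hYQ y hy)
    · intro z hz
      exact hY.1 z (Finset.mem_filter.1 hz).1
    · intro z hz
      exact hYQ z (Finset.mem_filter.1 hz).1
    · intro z hz z' hz' hne
      rcases hY.2 z (Finset.mem_filter.1 hz).1 z' (Finset.mem_filter.1 hz').1 hne with h | h
      · exact h.le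
      · linarith
    · intro z hz
      rw [Finset.mem_filter] at hz
      rcases hY.2 y hy z hz.1 (Ne.symm hz.2.1) with h | h
      · exact absurd h hz.2.2
      · exact h
  have hF := frob' (fun y : Y => (y : EuclideanSpace ℝ (Fin d))) a ha.le
  have h1 : ∑ i : Y, (‖(i : EuclideanSpace ℝ (Fin d))‖ ^ 2 - a) = (Y.card : ℝ) * (ν - a) := by
    rw [Finset.sum_congr rfl (fun (i : Y) _ => by rw [hY.1 i.1 i.2]), Finset.sum_const,
      Finset.card_univ, Fintype.card_coe, nsmul_eq_mul]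
  have h2 : ∀ i : Y, ∑ j : Y, (inner ℝ (i : EuclideanSpace ℝ (Fin d)) (j : EuclideanSpace ℝ (Fin d)) - a) ^ 2
      ≤ (ν - a) ^ 2 + D * (ν + a) ^ 2 := by
    intro i
    rw [Finset.sum_coe_sort Y (fun z => (inner ℝ (i : EuclideanSpace ℝ (Fin d)) z - a) ^ 2)]
    rw [← Finset.add_sum_erase _ _ i.2]
    have h3 : (inner ℝ (i : EuclideanSpace ℝ (Fin d)) (i : EuclideanSpace ℝ (Fin d)) - a) ^ 2
        = (ν - a) ^ 2 := by
      rw [real_inner_self_eq_norm_sq, hY.1 i.1 i.2]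
    have h4 : ∑ z ∈ Y.erase i, (inner ℝ (i : EuclideanSpace ℝ (Fin d)) z - a) ^ 2
        = ∑ z ∈ Y.filter (fun z => z ≠ (i : EuclideanSpace ℝ (Fin d)) ∧ inner ℝ (i : EuclideanSpace ℝ (Fin d)) z ≠ a),
          (inner ℝ (i : EuclideanSpace ℝ (Fin d)) z - a) ^ 2 := by
      symm
      apply Finset.sum_subset
      · intro z hz
        rw [Finset.mem_filter] at hz
        exact Finset.mem_erase.2 ⟨hz.2.1, hz.1⟩
      · intro z hz hz'
        rw [Finset.mem_erase] at hz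
        rw [Finset.mem_filter] at hz'
        have h5 : inner ℝ (i : EuclideanSpace ℝ (Fin d)) z = a := by
          by_contra h6
          exact hz' ⟨hz.2, hz.1, h6⟩
        rw [h5]; ring
    have h5 : ∑ z ∈ Y.filter (fun z => z ≠ (i : EuclideanSpace ℝ (Fin d)) ∧ inner ℝ (i : EuclideanSpace ℝ (Fin d)) z ≠ a),
          (inner ℝ (i : EuclideanSpace ℝ (Fin d)) z - a) ^ 2
        ≤ ∑ _z ∈ Y.filter (fun z => z ≠ (i : EuclideanSpace ℝ (Fin d)) ∧ inner ℝ (i : EuclideanSpace ℝ (Fin d)) z ≠ a),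
          (ν + a) ^ 2 := by
      apply Finset.sum_le_sum
      intro z hz
      rw [Finset.mem_filter] at hz
      have h6 : |inner ℝ (i : EuclideanSpace ℝ (Fin d)) z| ≤ ν := by
        have h7 := abs_real_inner_le_norm (i : EuclideanSpace ℝ (Fin d)) z
        have h8 := hY.1 i.1 i.2
        have h9 := hY.1 z hz.1
        nlinarith [norm_nonneg (i : EuclideanSpace ℝ (Fin d)), norm_nonneg z,
          sq_nonneg (‖(i : EuclideanSpace ℝ (Fin d))‖ - ‖z‖)]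
      rw [abs_le] at h6
      apply sq_le_sq'
      · linarith
      · linarith
    rw [Finset.sum_const, nsmul_eq_mul] at h5
    have h6 := mul_le_mul_of_nonneg_right (hdeg i.1 i.2) (by positivity : (0 : ℝ) ≤ (ν + a) ^ 2)
    rw [h3, h4]
    linarith
  have h3 : ∑ i : Y, ∑ j : Y, (inner ℝ (i : EuclideanSpace ℝ (Fin d)) (j : EuclideanSpace ℝ (Fin d)) - a) ^ 2
      ≤ (Y.card : ℝ) * ((ν - a) ^ 2 + D * (ν + a) ^ 2) := by
    calc _ ≤ ∑ _i : Y, ((ν - a) ^ 2 + D * (ν + a) ^ 2) := Finset.sum_le_sum fun i _ => h2 i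
      _ = _ := by rw [Finset.sum_const, Finset.card_univ, Fintype.card_coe, nsmul_eq_mul]
  rw [h1] at hF
  have hd : (0 : ℝ) ≤ (d : ℝ) + 1 := by positivity
  have h4 : ((Y.card : ℝ) * (ν - a)) ^ 2 ≤ ((d : ℝ) + 1) * ((Y.card : ℝ) * ((ν - a) ^ 2 + D * (ν + a) ^ 2)) :=
    hF.trans (mul_le_mul_of_nonneg_left h3 hd)
  rcases (Nat.cast_nonneg (α := ℝ) Y.card).eq_or_lt with h0 | h0
  · rw [← h0]; positivity
  · have h5 : (Y.card : ℝ) * ((Y.card : ℝ) * (ν - a) ^ 2)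
        ≤ (Y.card : ℝ) * (((d : ℝ) + 1) * ((ν - a) ^ 2 + D * (ν + a) ^ 2)) := by nlinarith
    have h6 := le_of_mul_le_mul_left h5 h0
    rw [div_mul_eq_mul_div, le_div_iff₀ (by positivity)]
    linarith

end Pool.Agent.Helper17.Sph
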