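import Mathlib

set_option autoImplicit false

open scoped Classical

namespace Pool.Agent.Helper17.Sph

theorem sum_update {ι M : Type} [Fintype ι] [DecidableEq ι] [Fintype M] (a : ι) (F : (ι → M) → ℕ) :
    ∑ A : ι → M, ∑ r : M, F (Function.update A a r) = Fintype.card M * ∑ A, F A := by
  let e : (ι → M) × M ≃ (ι → M) × M :=
    { toFun := fun p => (Function.update p.1 a p.2, p.1 a)
      invFun := fun p => (Function.update p.1 a p.2, p.1 a)
      left_inv := fun p => by simp
      right_inv := fun p => by simp }
  have h1 : ∑ A : ι → M, ∑ r : M, F (Function.update A a r) =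
      ∑ p : (ι → M) × M, F (e p).1 := by
    rw [Fintype.sum_prod_type]
    rfl
  rw [h1, Equiv.sum_comp e (fun p => F p.1), Fintype.sum_prod_type]
  simp [Finset.sum_const, ← Finset.mul_sum]

/-- Revealing the coordinates in increasing order, each event in `I` costs a factor `b`. -/
theorem chain {ι M : Type} [Fintype ι] [LinearOrder ι] [Fintype M] (k : ι → ι)
    (Q : ι → M → M → Prop) (b : ℕ)
    (hQ : ∀ i P, b * (Finset.univ.filter (Q i P)).card ≤ Fintype.card M)
    (I : Finset ι) (hI : ∀ i ∈ I, k i < i) :
    b ^ I.card * (Finset.univ.filter fun A : ι → M => ∀ i ∈ I, Q i (A (k i)) (A i)).card ≤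
      Fintype.card (ι → M) := by
  rcases isEmpty_or_nonempty M with hM | hM
  · rcases isEmpty_or_nonempty ι with hi | hi
    · have : I = ∅ := by
        ext i
        exact hi.elim i
      subst this
      simp
    · have : IsEmpty (ι → M) := ⟨fun f => hM.elim (f (Classical.arbitrary ι))⟩
      simp
  have hMpos : 0 < Fintype.card M := Fintype.card_pos
  induction I using Finset.induction_on_max with
  | empty => simp
  | insert a I' hlt ih =>
    have haI : a ∉ I' := fun h => lt_irrefl _ (hlt a h)
    have ih' := ih (fun i hi => hI i (Finset.mem_insert_of_mem hi))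
    have hka : k a < a := hI a (Finset.mem_insert_self _ _)
    rw [Finset.card_insert_of_notMem haI, pow_succ]
    refine le_trans ?_ ih'
    rw [mul_assoc]
    apply Nat.mul_le_mul_left
    -- b * |T| ≤ |T'|
    set T : Finset (ι → M) := Finset.univ.filter fun A : ι → M => ∀ i ∈ insert a I', Q i (A (k i)) (A i)
    set T' : Finset (ι → M) := Finset.univ.filter fun A : ι → M => ∀ i ∈ I', Q i (A (k i)) (A i)
    have hT : ∑ A : ι → M, ∑ r : M, (if Function.update A a r ∈ T then 1 else 0) =
        Fintype.card M * T.card := by
      rw [sum_update a (fun A => if A ∈ T then 1 else 0)]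
      simp
    have key : ∀ A : ι → M, b * ∑ r : M, (if Function.update A a r ∈ T then 1 else 0) ≤
        Fintype.card M * (if A ∈ T' then 1 else 0) := by
      intro A
      have hmem : ∀ r, Function.update A a r ∈ T ↔ (A ∈ T' ∧ Q a (A (k a)) r) := by
        intro r
        simp only [T, T', Finset.mem_filter, Finset.mem_univ, true_and, Finset.mem_insert]
        constructor
        · intro h
          constructor
          · intro i hi
            have h1 := h i (Or.inr hi)
            have hia : i ≠ a := (hlt i hi).ne
            have hkia : k i ≠ a := ((hI i (Finset.mem_insert_of_mem hi)).trans (hlt i hi)).ne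
            simpa [Function.update_of_ne hia, Function.update_of_ne hkia] using h1
          · have h1 := h a (Or.inl rfl)
            simpa [Function.update_of_ne hka.ne] using h1
        · rintro ⟨h1, h2⟩ i (rfl | hi)
          · simpa [Function.update_of_ne hka.ne] using h2
          · have hia : i ≠ a := (hlt i hi).ne
            have hkia : k i ≠ a := ((hI i (Finset.mem_insert_of_mem hi)).trans (hlt i hi)).ne
            simpa [Function.update_of_ne hia, Function.update_of_ne hkia] using h1 i hi
      by_cases hA : A ∈ T'
      · have : ∑ r : M, (if Function.update A a r ∈ T then 1 else 0) =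
            (Finset.univ.filter (Q a (A (k a)))).card := by
          rw [Finset.card_filter]
          refine Finset.sum_congr rfl fun r _ => ?_
          simp [hmem, hA]
        rw [this, if_pos hA, mul_one]
        exact hQ a (A (k a))
      · have : ∑ r : M, (if Function.update A a r ∈ T then 1 else 0) = 0 := by
          apply Finset.sum_eq_zero
          intro r _
          rw [if_neg]
          rw [hmem]
          exact fun h => hA h.1
        rw [this]
        simp
    have h2 : b * (Fintype.card M * T.card) ≤ Fintype.card M * T'.card := by
      rw [← hT, Finset.mul_sum]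
      calc ∑ A : ι → M, b * ∑ r : M, (if Function.update A a r ∈ T then 1 else 0)
          ≤ ∑ A : ι → M, Fintype.card M * (if A ∈ T' then 1 else 0) := Finset.sum_le_sum fun A _ => key A
        _ = Fintype.card M * T'.card := by
            rw [← Finset.mul_sum]; simp
    have h3 : Fintype.card M * (b * T.card) ≤ Fintype.card M * T'.card := by
      calc Fintype.card M * (b * T.card) = b * (Fintype.card M * T.card) := by ring
        _ ≤ _ := h2
    exact Nat.le_of_mul_le_mul_left h3 hMpos

end Pool.Agent.Helper17.Sph
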