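import Mathlib

set_option autoImplicit false

open Matrix
open scoped MatrixOrder Classical

namespace Pool.Agent.Helper17.Sph

variable {m : ℕ} {W : Type} [Fintype W]

/-- Gram matrix: identity perturbed by `-1/|W|` on the related pairs of the same part. -/
noncomputable def gm (B : Fin m → W → W → Prop) : Matrix (Fin m × W) (Fin m × W) ℝ :=
  fun v w => if v = w then 1 else if v.1 = w.1 ∧ B v.1 v.2 w.2 then -((Fintype.card W : ℝ))⁻¹ else 0

theorem gm_herm (B : Fin m → W → W → Prop) (hB : ∀ i a b, B i a b → B i b a) :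
    (gm B).IsHermitian := by
  ext v w
  simp only [conjTranspose_apply, star_trivial, gm]
  by_cases h : v = w
  · subst h; simp
  · have h' : w ≠ v := fun e => h e.symm
    simp only [h, h', if_false]
    congr 1
    apply propext
    constructor
    · rintro ⟨h1, h2⟩
      exact ⟨h1.symm, by rw [h1] at h2; exact hB _ _ _ h2⟩
    · rintro ⟨h1, h2⟩
      exact ⟨h1.symm, by rw [h1] at h2; exact hB _ _ _ h2⟩

theorem gm_posSemidef (B : Fin m → W → W → Prop) (hB : ∀ i a b, B i a b → B i b a) :
    (gm B).PosSemidef := by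
  refine PosSemidef.of_dotProduct_mulVec_nonneg (gm_herm B hB) fun x => ?_
  rcases isEmpty_or_nonempty W with hW | hW
  · simp [dotProduct]
  have hc : (0 : ℝ) < Fintype.card W := by exact_mod_cast Fintype.card_pos
  set c : ℝ := (Fintype.card W : ℝ)⁻¹ with hcdef
  have hcpos : 0 < c := by positivity
  -- off-diagonal part
  set g : (Fin m × W) → (Fin m × W) → ℝ := fun v w =>
    if v = w then 0 else if v.1 = w.1 ∧ B v.1 v.2 w.2 then -c else 0 with hg
  have e1 : star x ⬝ᵥ (gm B *ᵥ x) = (∑ v, x v ^ 2) + ∑ v, ∑ w, x v * g v w * x w := by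
    simp only [dotProduct, mulVec, star_trivial, ← Finset.sum_add_distrib, Finset.mul_sum]
    refine Finset.sum_congr rfl fun v _ => ?_
    have : ∀ w, x v * (gm B v w * x w) = (if v = w then x v * x w else 0) + x v * g v w * x w := by
      intro w
      simp only [gm, hg]
      by_cases h : v = w
      · simp [h]
      · simp only [h, if_false]; ring
    rw [Finset.sum_congr rfl fun w _ => this w, Finset.sum_add_distrib]
    simp only [Finset.sum_ite_eq, Finset.mem_univ, if_true]
    ring
  rw [e1]
  have habs : ∀ v w, |x v * g v w * x w| ≤ (if v.1 = w.1 then c * ((x v ^ 2 + x w ^ 2) / 2) else 0) := by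
    intro v w
    have h2 : |x v| * |x w| ≤ (x v ^ 2 + x w ^ 2) / 2 := by
      nlinarith [sq_nonneg (|x v| - |x w|), sq_abs (x v), sq_abs (x w)]
    rw [abs_mul, abs_mul]
    by_cases h : v.1 = w.1
    · rw [if_pos h]
      have hgb : |g v w| ≤ c := by
        simp only [hg]
        split_ifs
        · simp [hcpos.le]
        · rw [abs_neg, abs_of_pos hcpos]
        · simp [hcpos.le]
      calc |x v| * |g v w| * |x w| = |g v w| * (|x v| * |x w|) := by ring
        _ ≤ c * ((x v ^ 2 + x w ^ 2) / 2) := by gcongr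
    · rw [if_neg h]
      have : g v w = 0 := by
        simp only [hg]
        rw [if_neg (fun e => h (by rw [e])), if_neg (fun e => h e.1)]
      simp [this]
  have hsum : ∑ v, ∑ w, (if v.1 = w.1 then c * ((x v ^ 2 + x w ^ 2) / 2) else 0) = ∑ v, x v ^ 2 := by
    have e2 : ∀ v : Fin m × W, ∑ w : Fin m × W, (if v.1 = w.1 then c * ((x v ^ 2 + x w ^ 2) / 2) else 0) =
        x v ^ 2 / 2 + c / 2 * ∑ b : W, x (v.1, b) ^ 2 := by
      intro v
      rw [Fintype.sum_prod_type]
      have : ∀ i : Fin m, ∑ b : W, (if v.1 = i then c * ((x v ^ 2 + x (i, b) ^ 2) / 2) else 0) =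
          if v.1 = i then ∑ b : W, c * ((x v ^ 2 + x (i, b) ^ 2) / 2) else 0 := by
        intro i
        split_ifs <;> simp
      simp only [this, Finset.sum_ite_eq, Finset.mem_univ, if_true]
      rw [← Finset.mul_sum, ← Finset.sum_div, Finset.sum_add_distrib, Finset.sum_const,
        Finset.card_univ, nsmul_eq_mul]
      have : c * (Fintype.card W : ℝ) = 1 := inv_mul_cancel₀ hc.ne'
      linear_combination (x v ^ 2 / 2) * this
    rw [Finset.sum_congr rfl fun v _ => e2 v, Finset.sum_add_distrib, ← Finset.sum_div,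
      ← Finset.mul_sum]
    rw [Fintype.sum_prod_type (f := fun v : Fin m × W => ∑ b : W, x (v.1, b) ^ 2)]
    simp only [Finset.sum_const, Finset.card_univ, nsmul_eq_mul]
    rw [← Finset.mul_sum, Fintype.sum_prod_type (f := fun v : Fin m × W => x v ^ 2)]
    have : c * (Fintype.card W : ℝ) = 1 := inv_mul_cancel₀ hc.ne'
    linear_combination ((∑ i : Fin m, ∑ b : W, x (i, b) ^ 2) / 2) * this
  have hle : |∑ v, ∑ w, x v * g v w * x w| ≤ ∑ v, x v ^ 2 := by
    rw [← hsum]
    refine (Finset.abs_sum_le_sum_abs _ _).trans ?_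
    refine Finset.sum_le_sum fun v _ => (Finset.abs_sum_le_sum_abs _ _).trans ?_
    exact Finset.sum_le_sum fun w _ => habs v w
  have := (abs_le.mp hle).1
  linarith

theorem exists_vectors (B : Fin m → W → W → Prop) (hB : ∀ i a b, B i a b → B i b a) :
    ∃ u : Fin m × W → EuclideanSpace ℝ (Fin (m * Fintype.card W)),
      ∀ i j, inner ℝ (u i) (u j) = gm B i j := by
  have h : (0 : Matrix (Fin m × W) (Fin m × W) ℝ) ≤ gm B :=
    nonneg_iff_posSemidef.mpr (gm_posSemidef B hB)
  obtain ⟨R, hR⟩ := CStarAlgebra.nonneg_iff_eq_star_mul_self.mp h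
  have hcard : Fintype.card (Fin m × W) = m * Fintype.card W := by simp
  refine ⟨fun i => LinearIsometryEquiv.piLpCongrLeft 2 ℝ ℝ (Fintype.equivFinOfCardEq hcard)
    (WithLp.toLp 2 (fun k => R k i)), fun i j => ?_⟩
  rw [LinearIsometryEquiv.inner_map_map, hR]
  simp [PiLp.inner_apply, star_eq_conjTranspose, mul_apply, mul_comm]

/-- From an abstract configuration to a spherical code. -/
theorem exists_code {X : Type} [Fintype X] (hm : 1 < m) (π : Fin m → X → W)
    (B : Fin m → W → W → Prop) (hB : ∀ i a b, B i a b → B i b a)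
    (hL : ∀ x y i j, x ≠ y → π i x = π i y → π j x = π j y → i = j)
    (hb : ∀ x y i j, π j x = π j y → ¬ B i (π i x) (π i y))
    (hc : ∀ x y, (∀ j, π j x ≠ π j y) → ∃ i, B i (π i x) (π i y)) :
    ∃ S : Finset (EuclideanSpace ℝ (Fin (m * Fintype.card W))), S.card = Fintype.card X ∧
      (∀ x ∈ S, ‖x‖ = 1) ∧
      (∀ x ∈ S, ∀ y ∈ S, x ≠ y → (inner ℝ x y < 0 ∨ inner ℝ x y = 1 / m)) := by
  obtain ⟨u, hu⟩ := exists_vectors B hB
  have hmR : (0 : ℝ) < m := by exact_mod_cast (by omega : 0 < m)
  set word : X → EuclideanSpace ℝ (Fin (m * Fintype.card W)) := fun x =>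
    (Real.sqrt m)⁻¹ • ∑ i, u (i, π i x) with hword
  have hin : ∀ x y, inner ℝ (word x) (word y) = (1 / m : ℝ) * ∑ i, gm B (i, π i x) (i, π i y) := by
    intro x y
    simp only [hword]
    rw [inner_smul_left, inner_smul_right, sum_inner]
    simp only [inner_sum, hu, conj_trivial]
    rw [← mul_assoc]
    have h2 : (Real.sqrt m)⁻¹ * (Real.sqrt m)⁻¹ = (1 / m : ℝ) := by
      rw [← mul_inv, Real.mul_self_sqrt hmR.le, one_div]
    rw [h2]
    congr 1
    refine Finset.sum_congr rfl fun i _ => ?_
    rw [Finset.sum_eq_single i]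
    · intro j _ hji
      simp only [gm]
      rw [if_neg, if_neg]
      · exact fun e => hji e.1.symm
      · intro e
        exact hji (Prod.ext_iff.mp e).1.symm
    · simp
  have hdiag : ∀ x, inner ℝ (word x) (word x) = 1 := by
    intro x
    rw [hin]
    simp only [gm, if_true, Finset.sum_const, Finset.card_univ, Fintype.card_fin, nsmul_eq_mul, mul_one]
    field_simp
  have hnorm : ∀ x, ‖word x‖ = 1 := by
    intro x
    have := hdiag x
    rw [real_inner_self_eq_norm_sq] at this
    have h0 : 0 ≤ ‖word x‖ := norm_nonneg _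
    nlinarith
  have hpair : ∀ x y, x ≠ y → (inner ℝ (word x) (word y) < 0 ∨ inner ℝ (word x) (word y) = 1 / m) := by
    intro x y hxy
    rw [hin]
    by_cases h : ∃ j, π j x = π j y
    · right
      obtain ⟨j, hj⟩ := h
      rw [Finset.sum_eq_single j]
      · simp [gm, hj]
      · intro i _ hij
        simp only [gm]
        rw [if_neg, if_neg]
        · exact fun e => hb x y i j hj e.2
        · intro e
          exact hij (hL x y i j hxy (Prod.ext_iff.mp e).2 hj)
      · simp
    · left
      push Not at h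
      obtain ⟨i, hi⟩ := hc x y h
      have hWpos : (0 : ℝ) < Fintype.card W := by
        have : Nonempty W := ⟨π i x⟩
        exact_mod_cast Fintype.card_pos
      apply mul_neg_of_pos_of_neg (by positivity)
      have hneg : ∀ j ∈ (Finset.univ : Finset (Fin m)), gm B (j, π j x) (j, π j y) ≤ 0 := by
        intro j _
        simp only [gm]
        rw [if_neg (fun e => h j (Prod.ext_iff.mp e).2)]
        split_ifs
        · have : (0 : ℝ) < (Fintype.card W : ℝ)⁻¹ := by positivity
          linarith
        · exact le_rfl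
      refine Finset.sum_neg' hneg ⟨i, Finset.mem_univ _, ?_⟩
      · simp only [gm]
        rw [if_neg (fun e => h i (Prod.ext_iff.mp e).2), if_pos ⟨trivial, hi⟩]
        have : (0 : ℝ) < (Fintype.card W : ℝ)⁻¹ := by positivity
        linarith
  have hinj : Function.Injective word := by
    intro x y hxy
    by_contra hne
    have h1 := hpair x y hne
    rw [← hxy, hdiag] at h1
    rcases h1 with h1 | h1
    · linarith
    · -- 1 = 1/m forces m = 1
      have hm1 : (m : ℝ) = 1 := by
        field_simp at h1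
        linarith
      have hm1' : m = 1 := by exact_mod_cast hm1
      omega
  refine ⟨Finset.univ.map ⟨word, hinj⟩, by simp, ?_, ?_⟩
  · intro v hv
    obtain ⟨x, -, rfl⟩ := Finset.mem_map.mp hv
    exact hnorm x
  · intro v hv w hw hvw
    obtain ⟨x, -, rfl⟩ := Finset.mem_map.mp hv
    obtain ⟨y, -, rfl⟩ := Finset.mem_map.mp hw
    exact hpair x y (fun e => hvw (by rw [e]))

end Pool.Agent.Helper17.Sph
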