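import Mathlib
import Pool.Agent.Helper17.Sph.Count

set_option autoImplicit false

open Matrix
open scoped Classical

namespace Pool.Agent.Helper17.Sph

section
variable {q : ℕ} [hqp : Fact q.Prime] {s u : ℕ}

/-- number of matrices with a prescribed value at a nonzero vector -/
theorem card_mulVec (w : Fin u → ZMod q) (hw : w ≠ 0) (v : Fin s → ZMod q) :
    q ^ s * (Finset.univ.filter fun R : Matrix (Fin s) (Fin u) (ZMod q) => R *ᵥ w = v).card =
      Fintype.card (Matrix (Fin s) (Fin u) (ZMod q)) := by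
  set f : Matrix (Fin s) (Fin u) (ZMod q) →+ (Fin s → ZMod q) :=
    { toFun := fun R => R *ᵥ w
      map_zero' := by simp
      map_add' := fun a b => by simp [add_mulVec] } with hf
  have hsurj : ∀ v : Fin s → ZMod q, v ∈ Set.range f := by
    intro v
    obtain ⟨j, hj⟩ : ∃ j, w j ≠ 0 := by
      by_contra h
      push Not at h
      exact hw (funext h)
    refine ⟨fun i j' => if j' = j then v i * (w j)⁻¹ else 0, ?_⟩
    ext i
    simp only [hf, AddMonoidHom.coe_mk, ZeroHom.coe_mk, mulVec, dotProduct, ite_mul, zero_mul,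
      Finset.sum_ite_eq', Finset.mem_univ, if_true]
    rw [mul_assoc, inv_mul_cancel₀ hj, mul_one]
  have hfib : ∀ v' : Fin s → ZMod q,
      (Finset.univ.filter fun R : Matrix (Fin s) (Fin u) (ZMod q) => R *ᵥ w = v').card =
      (Finset.univ.filter fun R : Matrix (Fin s) (Fin u) (ZMod q) => R *ᵥ w = v).card := by
    intro v'
    exact AddMonoidHom.card_fiber_eq_of_mem_range f (hsurj v') (hsurj v)
  have htot : Fintype.card (Matrix (Fin s) (Fin u) (ZMod q)) =
      ∑ v' : Fin s → ZMod q,
        (Finset.univ.filter fun R : Matrix (Fin s) (Fin u) (ZMod q) => R *ᵥ w = v').card := by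
    rw [← Finset.card_univ]
    exact Finset.card_eq_sum_card_fiberwise (fun _ _ => Finset.mem_univ _)
  rw [htot, Finset.sum_congr rfl fun v' _ => hfib v', Finset.sum_const, Finset.card_univ]
  simp [ZMod.card]

/-- the symmetric relation between two graphs of linear maps -/
def QD (D : (Fin s → ZMod q) × (Fin u → ZMod q)) (P R : Matrix (Fin s) (Fin u) (ZMod q)) : Prop :=
  ∃ w : Fin u → ZMod q, w ≠ 0 ∧ R *ᵥ w = P *ᵥ w + (D.1 - P *ᵥ D.2)

theorem card_QD {c : ℕ} (hs : s = u + c) (D : (Fin s → ZMod q) × (Fin u → ZMod q))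
    (P : Matrix (Fin s) (Fin u) (ZMod q)) :
    q ^ c * (Finset.univ.filter (QD D P)).card ≤ Fintype.card (Matrix (Fin s) (Fin u) (ZMod q)) := by
  have hsub : Finset.univ.filter (QD D P) ⊆
      (Finset.univ.filter fun w : Fin u → ZMod q => w ≠ 0).biUnion fun w =>
        Finset.univ.filter fun R : Matrix (Fin s) (Fin u) (ZMod q) =>
          R *ᵥ w = P *ᵥ w + (D.1 - P *ᵥ D.2) := by
    intro R hR
    obtain ⟨w, hw, hR'⟩ := (Finset.mem_filter.mp hR).2
    simp only [Finset.mem_biUnion, Finset.mem_filter, Finset.mem_univ, true_and]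
    exact ⟨w, hw, hR'⟩
  have h1 : (Finset.univ.filter (QD D P)).card ≤
      ∑ w ∈ (Finset.univ.filter fun w : Fin u → ZMod q => w ≠ 0),
        (Finset.univ.filter fun R : Matrix (Fin s) (Fin u) (ZMod q) =>
          R *ᵥ w = P *ᵥ w + (D.1 - P *ᵥ D.2)).card :=
    (Finset.card_le_card hsub).trans Finset.card_biUnion_le
  have hq0 : 0 < q ^ s := pow_pos hqp.out.pos _
  have h2 : q ^ s * (Finset.univ.filter (QD D P)).card ≤
      q ^ u * Fintype.card (Matrix (Fin s) (Fin u) (ZMod q)) := by
    calc q ^ s * (Finset.univ.filter (QD D P)).card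
        ≤ q ^ s * ∑ w ∈ (Finset.univ.filter fun w : Fin u → ZMod q => w ≠ 0),
          (Finset.univ.filter fun R : Matrix (Fin s) (Fin u) (ZMod q) =>
            R *ᵥ w = P *ᵥ w + (D.1 - P *ᵥ D.2)).card := Nat.mul_le_mul_left _ h1
      _ = ∑ w ∈ (Finset.univ.filter fun w : Fin u → ZMod q => w ≠ 0),
          Fintype.card (Matrix (Fin s) (Fin u) (ZMod q)) := by
          rw [Finset.mul_sum]
          refine Finset.sum_congr rfl fun w hw => ?_
          exact card_mulVec w (Finset.mem_filter.mp hw).2 _
      _ ≤ q ^ u * Fintype.card (Matrix (Fin s) (Fin u) (ZMod q)) := by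
          rw [Finset.sum_const, smul_eq_mul]
          apply Nat.mul_le_mul_right
          refine (Finset.card_le_univ _).trans ?_
          simp [ZMod.card]
  have h3 : q ^ u * (q ^ c * (Finset.univ.filter (QD D P)).card) ≤
      q ^ u * Fintype.card (Matrix (Fin s) (Fin u) (ZMod q)) := by
    rw [← mul_assoc, ← pow_add, ← hs]
    exact h2
  exact Nat.le_of_mul_le_mul_left h3 (pow_pos hqp.out.pos _)

theorem QD_symm {D : (Fin s → ZMod q) × (Fin u → ZMod q)} {P R : Matrix (Fin s) (Fin u) (ZMod q)}
    (hR : D.1 ≠ R *ᵥ D.2) (h : QD D P R) : QD D R P := by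
  obtain ⟨w, hw, h⟩ := h
  refine ⟨D.2 - w, ?_, ?_⟩
  · intro h0
    have hwz : w = D.2 := (sub_eq_zero.mp h0).symm
    rw [hwz] at h
    apply hR
    rw [h]; abel
  · rw [mulVec_sub, mulVec_sub, h]; abel

theorem exists_mats {m c : ℕ} (hc : 0 < c) (hs : s = u + c)
    (h : 2 * u + c + 1 ≤ c * ((m + 1) / 2)) (hq : m ^ m + m ^ 2 < q) :
    ∃ A : Fin m → Matrix (Fin s) (Fin u) (ZMod q),
      (∀ i j, i ≠ j → ∀ w, A i *ᵥ w = A j *ᵥ w → w = 0) ∧
      ∀ D : (Fin s → ZMod q) × (Fin u → ZMod q), (∀ j, D.1 ≠ A j *ᵥ D.2) →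
        ∃ i, ∀ k, k ≠ i → ∀ w, A k *ᵥ w ≠ A i *ᵥ w + (D.1 - A i *ᵥ D.2) := by
  set M := Matrix (Fin s) (Fin u) (ZMod q) with hM
  set Ω := (Fin m → M) with hΩ
  by_contra hcon
  push Not at hcon
  have hq0 : 0 < q := hqp.out.pos
  -- the two bad sets
  set Bad1 : Finset Ω := (Finset.univ : Finset (Fin m × Fin m)).biUnion fun p =>
    if p.1 < p.2 then Finset.univ.filter fun A : Ω => ∀ i ∈ ({p.2} : Finset (Fin m)), QD 0 (A p.1) (A i)
    else ∅ with hBad1
  set E : ((Fin s → ZMod q) × (Fin u → ZMod q)) → (Fin m → Fin m) → Finset Ω := fun D k =>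
    Finset.univ.filter fun A : Ω => ∀ i, QD D (A (k i)) (A i) ∧ QD D (A i) (A (k i)) with hE
  set Bad2 : Finset Ω := (Finset.univ : Finset ((Fin s → ZMod q) × (Fin u → ZMod q))).biUnion fun D =>
    (Finset.univ.filter fun k : Fin m → Fin m => ∀ i, k i ≠ i).biUnion fun k => E D k with hBad2
  have hcover : (Finset.univ : Finset Ω) ⊆ Bad1 ∪ Bad2 := by
    intro A _
    by_cases h1 : ∀ i j, i ≠ j → ∀ w, A i *ᵥ w = A j *ᵥ w → w = 0
    · obtain ⟨D, hD, hD2⟩ := hcon A h1
      choose k hk w hw using hD2
      apply Finset.mem_union_right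
      simp only [hBad2, hE, Finset.mem_biUnion, Finset.mem_univ, true_and, Finset.mem_filter]
      refine ⟨D, k, hk, fun i => ?_⟩
      have hw0 : w i ≠ 0 := by
        intro h0
        have := hw i
        rw [h0, mulVec_zero, mulVec_zero, zero_add] at this
        exact hD i (sub_eq_zero.mp this.symm)
      have h2 : QD D (A i) (A (k i)) := ⟨w i, hw0, hw i⟩
      exact ⟨QD_symm (hD (k i)) h2, h2⟩
    · push Not at h1
      obtain ⟨i, j, hij, w, hw, hw0⟩ := h1
      apply Finset.mem_union_left
      simp only [hBad1, Finset.mem_biUnion, Finset.mem_univ, true_and]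
      rcases lt_or_gt_of_ne hij with hlt | hlt
      · refine ⟨(i, j), ?_⟩
        rw [if_pos hlt]
        simp only [Finset.mem_filter, Finset.mem_univ, true_and, Finset.mem_singleton]
        rintro _ rfl
        exact ⟨w, hw0, by simp [hw]⟩
      · refine ⟨(j, i), ?_⟩
        rw [if_pos hlt]
        simp only [Finset.mem_filter, Finset.mem_univ, true_and, Finset.mem_singleton]
        rintro _ rfl
        exact ⟨w, hw0, by simp [hw]⟩
  have hB1 : q * Bad1.card ≤ m ^ 2 * Fintype.card Ω := by
    have hle : Bad1.card ≤ ∑ p : Fin m × Fin m, (if p.1 < p.2 then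
        Finset.univ.filter fun A : Ω => ∀ i ∈ ({p.2} : Finset (Fin m)), QD 0 (A p.1) (A i)
        else ∅ : Finset Ω).card := Finset.card_biUnion_le
    have hone : ∀ p : Fin m × Fin m, q * (if p.1 < p.2 then
        Finset.univ.filter fun A : Ω => ∀ i ∈ ({p.2} : Finset (Fin m)), QD 0 (A p.1) (A i)
        else ∅ : Finset Ω).card ≤ Fintype.card Ω := by
      intro p
      split_ifs with hp
      · have hch := chain (ι := Fin m) (M := M) (fun _ => p.1) (fun _ P R => QD 0 P R) (q ^ c)
          (fun _ P => card_QD hs 0 P) {p.2} (by intro i hi; rw [Finset.mem_singleton.mp hi]; exact hp)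
        rw [Finset.card_singleton, pow_one] at hch
        refine le_trans (Nat.mul_le_mul ?_ (Finset.card_le_card ?_)) hch
        · calc q = q ^ 1 := (pow_one q).symm
            _ ≤ q ^ c := Nat.pow_le_pow_right hq0 hc
        · intro A hA
          simp only [Finset.mem_filter, Finset.mem_univ, true_and] at hA ⊢
          exact hA
      · simp
    calc q * Bad1.card ≤ q * _ := Nat.mul_le_mul_left _ hle
      _ = ∑ p : Fin m × Fin m, q * (if p.1 < p.2 then
        Finset.univ.filter fun A : Ω => ∀ i ∈ ({p.2} : Finset (Fin m)), QD 0 (A p.1) (A i)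
        else ∅ : Finset Ω).card := Finset.mul_sum _ _ _
      _ ≤ ∑ p : Fin m × Fin m, Fintype.card Ω := Finset.sum_le_sum fun p _ => hone p
      _ = m ^ 2 * Fintype.card Ω := by
        simp [Finset.sum_const, sq]
  have hB2 : q * Bad2.card ≤ m ^ m * Fintype.card Ω := by
    -- one event
    have hone : ∀ (D : (Fin s → ZMod q) × (Fin u → ZMod q)) (k : Fin m → Fin m), (∀ i, k i ≠ i) →
        q ^ (2 * u + c + 1) * (E D k).card ≤ Fintype.card Ω := by
      intro D k hk
      set I := Finset.univ.filter fun i : Fin m => k i < i with hI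
      set J := Finset.univ.filter fun i : Fin m => i < k i with hJ
      have hIJ : I.card + J.card = m := by
        have : I.card + J.card = (Finset.univ : Finset (Fin m)).card := by
          rw [hI, hJ, ← Finset.card_union_of_disjoint]
          · congr 1
            ext i
            simp only [Finset.mem_union, Finset.mem_filter, Finset.mem_univ, true_and, iff_true]
            exact lt_or_gt_of_ne (hk i)
          · rw [Finset.disjoint_filter]
            intro i _ h1 h2
            exact lt_asymm h1 h2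
        simpa using this
      have hpow : ∀ n, (m + 1) / 2 ≤ n → q ^ (2 * u + c + 1) ≤ (q ^ c) ^ n := by
        intro n hn
        rw [← pow_mul]
        exact Nat.pow_le_pow_right hq0 (h.trans (Nat.mul_le_mul_left _ hn))
      rcases le_or_gt ((m + 1) / 2) I.card with hcase | hcase
      · have hch := chain (ι := Fin m) (M := M) k (fun _ P R => QD D P R) (q ^ c)
          (fun _ P => card_QD hs D P) I (by intro i hi; exact (Finset.mem_filter.mp hi).2)
        refine le_trans (Nat.mul_le_mul (hpow _ hcase) (Finset.card_le_card ?_)) hch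
        intro A hA
        simp only [hE, Finset.mem_filter, Finset.mem_univ, true_and] at hA ⊢
        exact fun i _ => (hA i).1
      · have hJc : (m + 1) / 2 ≤ J.card := by omega
        have hch := chain (ι := (Fin m)ᵒᵈ) (M := M) k (fun _ P R => QD D P R) (q ^ c)
          (fun _ P => card_QD hs D P) J (by intro i hi; exact (Finset.mem_filter.mp hi).2)
        refine le_trans (Nat.mul_le_mul (hpow _ hJc) (Finset.card_le_card ?_)) hch
        intro A hA
        simp only [hE, Finset.mem_filter, Finset.mem_univ, true_and] at hA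
        exact Finset.mem_filter.mpr ⟨Finset.mem_univ _, fun i _ => (hA i).1⟩
    have hle : Bad2.card ≤ ∑ D : (Fin s → ZMod q) × (Fin u → ZMod q),
        ∑ k ∈ (Finset.univ.filter fun k : Fin m → Fin m => ∀ i, k i ≠ i), (E D k).card := by
      refine Finset.card_biUnion_le.trans (Finset.sum_le_sum fun D _ => Finset.card_biUnion_le)
    have hcardD : Fintype.card ((Fin s → ZMod q) × (Fin u → ZMod q)) = q ^ (2 * u + c) := by
      simp only [Fintype.card_prod, Fintype.card_fun, ZMod.card, Fintype.card_fin]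
      rw [← pow_add, hs]
      congr 1; ring
    have h3 : q ^ (2 * u + c) * (q * Bad2.card) ≤ q ^ (2 * u + c) * (m ^ m * Fintype.card Ω) := by
      calc q ^ (2 * u + c) * (q * Bad2.card) = q ^ (2 * u + c + 1) * Bad2.card := by ring
        _ ≤ q ^ (2 * u + c + 1) * ∑ D : (Fin s → ZMod q) × (Fin u → ZMod q),
          ∑ k ∈ (Finset.univ.filter fun k : Fin m → Fin m => ∀ i, k i ≠ i), (E D k).card :=
            Nat.mul_le_mul_left _ hle
        _ = ∑ D : (Fin s → ZMod q) × (Fin u → ZMod q),
          ∑ k ∈ (Finset.univ.filter fun k : Fin m → Fin m => ∀ i, k i ≠ i),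
            q ^ (2 * u + c + 1) * (E D k).card := by
            rw [Finset.mul_sum]
            exact Finset.sum_congr rfl fun D _ => Finset.mul_sum _ _ _
        _ ≤ ∑ D : (Fin s → ZMod q) × (Fin u → ZMod q),
          ∑ k ∈ (Finset.univ.filter fun k : Fin m → Fin m => ∀ i, k i ≠ i), Fintype.card Ω :=
            Finset.sum_le_sum fun D _ => Finset.sum_le_sum fun k hk => hone D k (Finset.mem_filter.mp hk).2
        _ ≤ ∑ D : (Fin s → ZMod q) × (Fin u → ZMod q), m ^ m * Fintype.card Ω := by
            refine Finset.sum_le_sum fun D _ => ?_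
            rw [Finset.sum_const, smul_eq_mul]
            apply Nat.mul_le_mul_right
            refine (Finset.card_le_univ _).trans ?_
            simp
        _ = q ^ (2 * u + c) * (m ^ m * Fintype.card Ω) := by
            rw [Finset.sum_const, Finset.card_univ, hcardD, smul_eq_mul]
    exact Nat.le_of_mul_le_mul_left h3 (pow_pos hq0 _)
  have hΩpos : 0 < Fintype.card Ω := Fintype.card_pos
  have htot : Fintype.card Ω ≤ Bad1.card + Bad2.card := by
    rw [← Finset.card_univ]
    exact (Finset.card_le_card hcover).trans (Finset.card_union_le _ _)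
  have h4 : q * Fintype.card Ω ≤ (m ^ m + m ^ 2) * Fintype.card Ω := by
    calc q * Fintype.card Ω ≤ q * (Bad1.card + Bad2.card) := Nat.mul_le_mul_left _ htot
      _ = q * Bad1.card + q * Bad2.card := by ring
      _ ≤ m ^ 2 * Fintype.card Ω + m ^ m * Fintype.card Ω := Nat.add_le_add hB1 hB2
      _ = _ := by ring
  have h5 := Nat.le_of_mul_le_mul_right h4 hΩpos
  omega

end

end Pool.Agent.Helper17.Sph
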