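import Mathlib
import Pool.Agent.Helper17.Sph.Gram
import Pool.Agent.Helper17.Sph.Mats

set_option autoImplicit false

open Matrix
open scoped Classical

namespace Pool.Agent.Helper17.Sph

/-- Codes over `F_q`: `q^(2u+c)` points in dimension `m q^(u+c)`. -/
theorem code_prime {m u c q : ℕ} [Fact q.Prime] (hm : 1 < m) (hc : 0 < c)
    (h : 2 * u + c + 1 ≤ c * ((m + 1) / 2)) (hq : m ^ m + m ^ 2 < q) :
    ∃ S : Finset (EuclideanSpace ℝ (Fin (m * q ^ (u + c)))), S.card = q ^ (2 * u + c) ∧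
      (∀ x ∈ S, ‖x‖ = 1) ∧
      (∀ x ∈ S, ∀ y ∈ S, x ≠ y → (inner ℝ x y < 0 ∨ inner ℝ x y = 1 / m)) := by
  obtain ⟨A, hA1, hA2⟩ := exists_mats (q := q) (s := u + c) (u := u) hc rfl h hq
  set π : Fin m → ((Fin (u + c) → ZMod q) × (Fin u → ZMod q)) → (Fin (u + c) → ZMod q) :=
    fun i x => x.1 - A i *ᵥ x.2 with hπ
  set B : Fin m → (Fin (u + c) → ZMod q) → (Fin (u + c) → ZMod q) → Prop :=
    fun i a b => ∀ k, k ≠ i → ∀ w, A k *ᵥ w ≠ A i *ᵥ w + (a - b) with hB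
  have hcode := exists_code (m := m) (W := Fin (u + c) → ZMod q)
    (X := (Fin (u + c) → ZMod q) × (Fin u → ZMod q)) hm π B ?_ ?_ ?_ ?_
  · have e1 : Fintype.card (Fin (u + c) → ZMod q) = q ^ (u + c) := by simp [ZMod.card]
    have e2 : Fintype.card ((Fin (u + c) → ZMod q) × (Fin u → ZMod q)) = q ^ (2 * u + c) := by
      simp only [Fintype.card_prod, Fintype.card_fun, ZMod.card, Fintype.card_fin]
      rw [← pow_add]
      congr 1; ring
    rw [e1, e2] at hcode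
    exact hcode
  · intro i a b hab k hk w hw
    apply hab k hk (-w)
    rw [mulVec_neg, mulVec_neg, hw]; abel
  · intro x y i j hxy hi hj
    by_contra hij
    simp only [hπ] at hi hj
    have h1 : A i *ᵥ (x.2 - y.2) = x.1 - y.1 := by
      rw [mulVec_sub]
      linear_combination -hi
    have h2 : A j *ᵥ (x.2 - y.2) = x.1 - y.1 := by
      rw [mulVec_sub]
      linear_combination -hj
    have h3 := hA1 i j hij _ (h1.trans h2.symm)
    rw [h3, mulVec_zero] at h1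
    apply hxy
    exact Prod.ext (sub_eq_zero.mp h1.symm) (sub_eq_zero.mp h3)
  · intro x y i j hj hBi
    simp only [hπ, hB] at hj hBi
    by_cases hij : i = j
    · subst hij
      obtain ⟨k, hk⟩ : ∃ k : Fin m, k ≠ i := by
        have : Nontrivial (Fin m) := Fin.nontrivial_iff_two_le.mpr hm
        exact exists_ne i
      apply hBi k hk 0
      rw [hj]; simp
    · apply hBi j (fun e => hij e.symm) (x.2 - y.2)
      rw [mulVec_sub, mulVec_sub]
      linear_combination -hj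
  · intro x y hxy
    obtain ⟨i, hi⟩ := hA2 (x.1 - y.1, x.2 - y.2) (by
      intro j hj
      apply hxy j
      simp only [hπ]
      simp only at hj
      rw [mulVec_sub] at hj
      linear_combination hj)
    refine ⟨i, fun k hk w hw => hi k hk w ?_⟩
    simp only [hπ] at hw
    rw [hw]
    simp only [mulVec_sub]
    abel

/-- Enlarging the dimension. -/
theorem embed {n d : ℕ} (hnd : n ≤ d) (α : ℝ) (S : Finset (EuclideanSpace ℝ (Fin n)))
    (h1 : ∀ x ∈ S, ‖x‖ = 1)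
    (h2 : ∀ x ∈ S, ∀ y ∈ S, x ≠ y → (inner ℝ x y < 0 ∨ inner ℝ x y = α)) :
    ∃ S' : Finset (EuclideanSpace ℝ (Fin d)), S'.card = S.card ∧ (∀ x ∈ S', ‖x‖ = 1) ∧
      (∀ x ∈ S', ∀ y ∈ S', x ≠ y → (inner ℝ x y < 0 ∨ inner ℝ x y = α)) := by
  have hon : Orthonormal ℝ (fun i : Fin n => EuclideanSpace.basisFun (Fin d) ℝ (Fin.castLE hnd i)) :=
    (EuclideanSpace.basisFun (Fin d) ℝ).orthonormal.comp _ (Fin.castLE_injective hnd)
  let f : EuclideanSpace ℝ (Fin n) →ₗ[ℝ] EuclideanSpace ℝ (Fin d) :=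
    { toFun := fun v => ∑ i, v i • EuclideanSpace.basisFun (Fin d) ℝ (Fin.castLE hnd i)
      map_add' := fun v w => by simp [add_smul, Finset.sum_add_distrib]
      map_smul' := fun c v => by simp [Finset.smul_sum, smul_smul] }
  have hf : ∀ v w, inner ℝ (f v) (f w) = inner ℝ v w := by
    intro v w
    have := hon.inner_sum (fun i => v i) (fun i => w i) Finset.univ
    simp only [f, LinearMap.coe_mk, AddHom.coe_mk]
    rw [this]
    simp [PiLp.inner_apply, mul_comm]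
  let g := f.isometryOfInner hf
  have hg : ∀ v w, inner ℝ (g v) (g w) = inner ℝ v w := hf
  refine ⟨S.map ⟨g, g.injective⟩, by simp, ?_, ?_⟩
  · intro v hv
    obtain ⟨x, hx, rfl⟩ := Finset.mem_map.mp hv
    simp [h1 x hx]
  · intro v hv w hw hvw
    obtain ⟨x, hx, rfl⟩ := Finset.mem_map.mp hv
    obtain ⟨y, hy, rfl⟩ := Finset.mem_map.mp hw
    simp only [Function.Embedding.coeFn_mk]
    rw [hg]
    exact h2 x hx y hy (fun e => hvw (by rw [e]))

theorem exists_y {m s : ℕ} (hm : 0 < m) (hs : 0 < s) (d : ℕ) :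
    ∃ y, m * y ^ s ≤ d ∧ d < m * (y + 1) ^ s := by
  have hex : ∃ y, d < m * (y + 1) ^ s := by
    refine ⟨d, ?_⟩
    calc d < d + 1 := Nat.lt_succ_self d
      _ = (d + 1) ^ 1 := (pow_one _).symm
      _ ≤ (d + 1) ^ s := Nat.pow_le_pow_right (Nat.succ_pos d) hs
      _ ≤ m * (d + 1) ^ s := Nat.le_mul_of_pos_left _ hm
  refine ⟨Nat.find hex, ?_, Nat.find_spec hex⟩
  rcases Nat.eq_zero_or_pos (Nat.find hex) with h0 | h0
  · rw [h0, zero_pow hs.ne']; simp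
  · have := Nat.find_min hex (Nat.sub_lt h0 one_pos)
    have e : Nat.find hex - 1 + 1 = Nat.find hex := Nat.sub_add_cancel h0
    rw [e] at this
    exact not_lt.mp this

/-- The lower bound with exponent `(2u+c)/(u+c)`. -/
theorem lower_uc {m u c : ℕ} (hm : 1 < m) (hc : 0 < c)
    (h : 2 * u + c + 1 ≤ c * ((m + 1) / 2)) :
    ∃ κ : ℝ, 0 < κ ∧ ∀ d : ℕ, 1 ≤ d → ∃ S : Finset (EuclideanSpace ℝ (Fin d)),
      κ * (d : ℝ) ^ (((2 * u + c : ℕ) : ℝ) / ((u + c : ℕ) : ℝ)) ≤ S.card ∧ (∀ x ∈ S, ‖x‖ = 1) ∧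
      (∀ x ∈ S, ∀ y ∈ S, x ≠ y → (inner ℝ x y < 0 ∨ inner ℝ x y = 1 / m)) := by
  set s := u + c with hs
  set E : ℝ := ((2 * u + c : ℕ) : ℝ) / (s : ℝ) with hE
  have hs0 : 0 < s := by omega
  have hsR : (0 : ℝ) < s := by exact_mod_cast hs0
  have hE0 : 0 ≤ E := by positivity
  have hm0 : 0 < m := by omega
  have hmR : (0 : ℝ) < m := by exact_mod_cast hm0
  set Y : ℕ := 2 * (m ^ m + m ^ 2) + 2 with hY
  -- threshold for d
  set D0 : ℝ := ((m * (Y + 1) ^ s : ℕ) : ℝ) with hD0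
  have hD0pos : 0 < D0 := by
    rw [hD0]; exact_mod_cast Nat.mul_pos hm0 (pow_pos (Nat.succ_pos _) _)
  set κ1 : ℝ := (D0 ^ E)⁻¹ with hκ1
  set κ2 : ℝ := ((m : ℝ) * 2 ^ s) ^ (-E) with hκ2
  have hκ1pos : 0 < κ1 := by positivity
  have hκ2pos : 0 < κ2 := by positivity
  refine ⟨min κ1 κ2, lt_min hκ1pos hκ2pos, fun d hd => ?_⟩
  have hdR : (1 : ℝ) ≤ d := by exact_mod_cast hd
  obtain ⟨y, hy1, hy2⟩ := exists_y hm0 hs0 d
  rcases lt_or_ge y Y with hyY | hyY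
  · -- small d
    refine ⟨{EuclideanSpace.single (⟨0, hd⟩ : Fin d) (1 : ℝ)}, ?_, ?_, ?_⟩
    · have hdD : (d : ℝ) ≤ D0 := by
        rw [hD0]
        have : d ≤ m * (Y + 1) ^ s := by
          refine hy2.le.trans (Nat.mul_le_mul_left _ (Nat.pow_le_pow_left (by omega) _))
        exact_mod_cast this
      have h1 : (d : ℝ) ^ E ≤ D0 ^ E := Real.rpow_le_rpow (by positivity) hdD hE0
      calc min κ1 κ2 * (d : ℝ) ^ E ≤ κ1 * D0 ^ E := by
            apply mul_le_mul (min_le_left _ _) h1 (by positivity) hκ1pos.le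
        _ = 1 := by rw [hκ1]; exact inv_mul_cancel₀ (by positivity)
        _ ≤ _ := by simp
    · intro x hx
      rw [Finset.mem_singleton.mp hx]; simp
    · intro x hx z hz hxz
      rw [Finset.mem_singleton] at hx hz
      exact absurd (hx.trans hz.symm) hxz
  · obtain ⟨q, hqp, hq1, hq2⟩ := Nat.exists_prime_lt_and_le_two_mul (y / 2) (by omega)
    have : Fact q.Prime := ⟨hqp⟩
    have hqbig : m ^ m + m ^ 2 < q := by omega
    obtain ⟨S, hS1, hS2, hS3⟩ := code_prime (m := m) (u := u) (c := c) (q := q) hm hc h hqbig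
    have hqy : q ≤ y := by omega
    have hle : m * q ^ s ≤ d := (Nat.mul_le_mul_left _ (Nat.pow_le_pow_left hqy _)).trans hy1
    obtain ⟨S', hS1', hS2', hS3'⟩ := embed hle (1 / m) S hS2 hS3
    refine ⟨S', ?_, hS2', hS3'⟩
    rw [hS1', hS1]
    have hy3 : y + 1 ≤ 2 * q := by omega
    have hd2 : d ≤ m * (2 * q) ^ s := hy2.le.trans (Nat.mul_le_mul_left _ (Nat.pow_le_pow_left hy3 _))
    have hd2R : (d : ℝ) ≤ (m * 2 ^ s) * (q : ℝ) ^ s := by
      have : (d : ℝ) ≤ ((m * (2 * q) ^ s : ℕ) : ℝ) := by exact_mod_cast hd2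
      refine this.trans (le_of_eq ?_)
      push_cast; ring
    have hqR : (0 : ℝ) < q := by exact_mod_cast hqp.pos
    have h1 : (d : ℝ) ^ E ≤ ((m * 2 ^ s) * (q : ℝ) ^ s) ^ E :=
      Real.rpow_le_rpow (by positivity) hd2R hE0
    have h2 : ((m * 2 ^ s) * (q : ℝ) ^ s) ^ E = ((m : ℝ) * 2 ^ s) ^ E * (q : ℝ) ^ (2 * u + c) := by
      rw [Real.mul_rpow (by positivity) (by positivity)]
      congr 1
      rw [← Real.rpow_natCast (q : ℝ) s, ← Real.rpow_mul hqR.le]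
      have : (s : ℝ) * E = ((2 * u + c : ℕ) : ℝ) := by
        rw [hE]; field_simp
      rw [this, Real.rpow_natCast]
    calc min κ1 κ2 * (d : ℝ) ^ E ≤ κ2 * (((m : ℝ) * 2 ^ s) ^ E * (q : ℝ) ^ (2 * u + c)) := by
          apply mul_le_mul (min_le_right _ _) (h1.trans h2.le) (by positivity) hκ2pos.le
      _ = (q : ℝ) ^ (2 * u + c) := by
          rw [hκ2, Real.rpow_neg (by positivity), ← mul_assoc, inv_mul_cancel₀ (by positivity), one_mul]
      _ ≤ _ := by push_cast; exact le_rfl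

/-- For `α = 1/m` and every exponent below `2 - 2/(⌈m/2⌉+1)`. -/
theorem lower {m : ℕ} (hm : 3 ≤ m) (e : ℝ) (he : e < 2 - 2 / (((m + 1) / 2 : ℕ) + 1 : ℝ)) :
    ∃ κ : ℝ, 0 < κ ∧ ∀ d : ℕ, 1 ≤ d → ∃ S : Finset (EuclideanSpace ℝ (Fin d)),
      κ * (d : ℝ) ^ e ≤ S.card ∧ (∀ x ∈ S, ‖x‖ = 1) ∧
      (∀ x ∈ S, ∀ y ∈ S, x ≠ y → (inner ℝ x y < 0 ∨ inner ℝ x y = 1 / m)) := by
  set M : ℕ := (m + 1) / 2 with hM
  have hM2 : 2 ≤ M := by omega
  have hMR : (2 : ℝ) ≤ M := by exact_mod_cast hM2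
  -- choose n large
  have hlim : ∃ n : ℕ, 1 ≤ n ∧ e ≤ ((2 * n * M : ℝ) - 2) / (n * (M + 1) - 1) := by
    set δ : ℝ := 2 - 2 / ((M : ℝ) + 1) - e with hδ
    have hδ0 : 0 < δ := by linarith
    obtain ⟨n, hn⟩ := exists_nat_gt (2 / δ)
    refine ⟨n + 1, by omega, ?_⟩
    have hn0 : (0 : ℝ) ≤ n := by positivity
    have hden : (0 : ℝ) < ((n : ℝ) + 1) * (M + 1) - 1 := by nlinarith
    push_cast
    rw [le_div_iff₀ hden]
    have he' : e = 2 - 2 / ((M : ℝ) + 1) - δ := by rw [hδ]; ring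
    have hMp : (0 : ℝ) < (M : ℝ) + 1 := by positivity
    have h1 : 2 / δ < n := hn
    have h2 : 2 < n * δ := by rwa [div_lt_iff₀ hδ0] at h1
    rw [he']
    have h3 : 2 / ((M : ℝ) + 1) * (M + 1) = 2 := by field_simp
    have h4 : 0 < 2 / ((M : ℝ) + 1) := by positivity
    have h5 : 2 / ((M : ℝ) + 1) ≤ 1 := by
      rw [div_le_one hMp]; linarith
    have h6 : δ ≤ δ * M := by nlinarith
    have h7 : (2 - 2 / ((M : ℝ) + 1) - δ) * (((n : ℝ) + 1) * (M + 1) - 1) =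
        2 * ((n : ℝ) + 1) * (M + 1) - 2 - 2 * ((n : ℝ) + 1) + 2 / ((M : ℝ) + 1) -
          δ * (((n : ℝ) + 1) * (M + 1) - 1) := by
      linear_combination (-((n : ℝ) + 1)) * h3
    rw [h7]
    have h8 : 2 ≤ δ * (((n : ℝ) + 1) * (M + 1) - 1) := by
      have : n * δ ≤ δ * (((n : ℝ) + 1) * (M + 1) - 1) := by
        nlinarith [mul_nonneg hn0 (mul_nonneg hδ0.le (by linarith : (0:ℝ) ≤ M))]
      linarith
    linarith
  obtain ⟨n, hn1, hn2⟩ := hlim
  have hMn : 1 ≤ n * (M - 1) := Nat.mul_pos (by omega) (by omega)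
  obtain ⟨u, hu⟩ : ∃ u, u + 1 = n * (M - 1) := ⟨n * (M - 1) - 1, by omega⟩
  have hMM : n * (M - 1) + n = n * M := by
    obtain ⟨M', hM'⟩ : ∃ M', M = M' + 1 := ⟨M - 1, by omega⟩
    rw [hM']; simp; ring
  have hcond : 2 * u + 2 * n + 1 ≤ 2 * n * ((m + 1) / 2) := by
    rw [← hM]
    have : 2 * n * M = 2 * (n * M) := by ring
    rw [this, ← hMM, ← hu]
    omega
  obtain ⟨κ, hκ, hall⟩ := lower_uc (m := m) (u := u) (c := 2 * n) (by omega) (by omega) hcond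
  refine ⟨κ, hκ, fun d hd => ?_⟩
  obtain ⟨S, hS1, hS2, hS3⟩ := hall d hd
  refine ⟨S, le_trans ?_ hS1, hS2, hS3⟩
  apply mul_le_mul_of_nonneg_left _ hκ.le
  apply Real.rpow_le_rpow_of_exponent_le (by exact_mod_cast hd)
  refine hn2.trans (le_of_eq ?_)
  have e1 : ((2 * u + 2 * n : ℕ) : ℝ) = 2 * n * M - 2 := by
    have : 2 * u + 2 * n + 2 = 2 * n * M := by
      have : 2 * n * M = 2 * (n * M) := by ring
      rw [this, ← hMM, ← hu]; ring
    have h' : ((2 * u + 2 * n + 2 : ℕ) : ℝ) = ((2 * n * M : ℕ) : ℝ) := by rw [this]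
    push_cast at h' ⊢
    linarith
  have e2 : ((u + 2 * n : ℕ) : ℝ) = n * (M + 1) - 1 := by
    have : u + 2 * n + 1 = n * (M + 1) := by
      have : n * (M + 1) = n * M + n := by ring
      rw [this, ← hMM, ← hu]; ring
    have h' : ((u + 2 * n + 1 : ℕ) : ℝ) = ((n * (M + 1) : ℕ) : ℝ) := by rw [this]
    push_cast at h' ⊢
    linarith
  rw [e1, e2]

end Pool.Agent.Helper17.Sph
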