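import Mathlib
import Pool.Agent.Helper17.Sph.Frob
import Pool.Agent.Helper17.Sph.Bukh

set_option autoImplicit false

namespace Pool.Agent.Helper17.Sph

/-- If every vector has at most `K` partners with a positive inner product, the set has at most
`2 d (1 + K)` elements. -/
theorem card_le_of_pos_degree {d : ℕ} (S : Finset (EuclideanSpace ℝ (Fin d))) (K : ℝ) (hK0 : 0 ≤ K)
    (h1 : ∀ x ∈ S, ‖x‖ = 1)
    (hK : ∀ x ∈ S, ((S.filter (fun y => y ≠ x ∧ 0 < inner ℝ x y)).card : ℝ) ≤ K) :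
    (S.card : ℝ) ≤ 2 * (d : ℝ) * (1 + K) := by
  classical
  set N : ℝ := (S.card : ℝ) with hN
  -- Frobenius inequality
  have hF := frob (ι := S) (d := d) (fun i => (i : EuclideanSpace ℝ (Fin d)))
  have hnorm : ∑ i : S, ‖(i : EuclideanSpace ℝ (Fin d))‖ ^ 2 = N := by
    have : ∀ i : S, ‖(i : EuclideanSpace ℝ (Fin d))‖ ^ 2 = 1 := by
      intro i; rw [h1 i i.2]; norm_num
    simp [this, hN]
  have hsum : ∑ i : S, ∑ j : S, (inner ℝ (i : EuclideanSpace ℝ (Fin d)) (j : EuclideanSpace ℝ (Fin d))) ^ 2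
      = ∑ x ∈ S, ∑ y ∈ S, (inner ℝ x y) ^ 2 := by
    rw [← Finset.sum_coe_sort S (fun x => ∑ y ∈ S, (inner ℝ x y) ^ 2)]
    apply Finset.sum_congr rfl
    intro i _
    rw [← Finset.sum_coe_sort S (fun y => (inner ℝ (i : EuclideanSpace ℝ (Fin d)) y) ^ 2)]
  rw [hnorm, hsum] at hF
  -- positivity of the squared norm of the sum
  have hpos : 0 ≤ ∑ x ∈ S, ∑ y ∈ S, inner ℝ x y := by
    have h0 : (0:ℝ) ≤ inner ℝ (∑ x ∈ S, x) (∑ y ∈ S, y) := real_inner_self_nonneg
    rw [sum_inner] at h0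
    simpa only [inner_sum] using h0
  -- pointwise bound
  have hpt : ∀ x ∈ S, ∀ y ∈ S, (inner ℝ x y) ^ 2 ≤ - inner ℝ x y +
      2 * ((if y = x then (1:ℝ) else 0) + (if y ≠ x ∧ 0 < inner ℝ x y then (1:ℝ) else 0)) := by
    intro x hx y hy
    have hle : |inner ℝ x y| ≤ 1 := by
      have := abs_real_inner_le_norm x y
      rw [h1 x hx, h1 y hy] at this
      simpa using this
    have hle' := abs_le.mp hle
    by_cases hxy : y = x
    · subst hxy
      have : inner ℝ y y = (1:ℝ) := by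
        rw [real_inner_self_eq_norm_sq, h1 y hy]; norm_num
      rw [this]; simp; norm_num
    · by_cases hp : 0 < inner ℝ x y
      · rw [if_neg hxy, if_pos ⟨hxy, hp⟩]
        nlinarith [hle'.1, hle'.2]
      · rw [if_neg hxy, if_neg (fun h => hp h.2)]
        push Not at hp
        nlinarith [hle'.1, hle'.2]
  have hsq : ∑ x ∈ S, ∑ y ∈ S, (inner ℝ x y) ^ 2 ≤ 2 * (N * (1 + K)) := by
    have e1 : ∑ x ∈ S, ∑ y ∈ S, (inner ℝ x y) ^ 2 ≤ ∑ x ∈ S, ∑ y ∈ S, (- inner ℝ x y +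
      2 * ((if y = x then (1:ℝ) else 0) + (if y ≠ x ∧ 0 < inner ℝ x y then (1:ℝ) else 0))) :=
      Finset.sum_le_sum (fun x hx => Finset.sum_le_sum (fun y hy => hpt x hx y hy))
    have e2 : ∑ x ∈ S, ∑ y ∈ S, (- inner ℝ x y +
      2 * ((if y = x then (1:ℝ) else 0) + (if y ≠ x ∧ 0 < inner ℝ x y then (1:ℝ) else 0)))
      = - (∑ x ∈ S, ∑ y ∈ S, inner ℝ x y) + 2 * ∑ x ∈ S, ((1:ℝ) +
        ((S.filter (fun y => y ≠ x ∧ 0 < inner ℝ x y)).card : ℝ)) := by
      rw [← Finset.sum_neg_distrib, Finset.mul_sum, ← Finset.sum_add_distrib]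
      apply Finset.sum_congr rfl
      intro x hx
      rw [Finset.sum_add_distrib, Finset.sum_neg_distrib, ← Finset.mul_sum, Finset.sum_add_distrib,
        Finset.sum_ite_eq' S x, if_pos hx, Finset.sum_boole]
    have e3 : ∑ x ∈ S, ((1:ℝ) + ((S.filter (fun y => y ≠ x ∧ 0 < inner ℝ x y)).card : ℝ))
        ≤ ∑ x ∈ S, (1 + K) := Finset.sum_le_sum (fun x hx => by linarith [hK x hx])
    rw [Finset.sum_const, nsmul_eq_mul] at e3
    linarith
  by_cases hN0 : N = 0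
  · rw [hN0]
    positivity
  · have hNpos : 0 < N := lt_of_le_of_ne (by rw [hN]; positivity) (Ne.symm hN0)
    have hd0 : (0:ℝ) ≤ (d:ℝ) := by positivity
    have h2 : N ^ 2 ≤ (d:ℝ) * (2 * (N * (1 + K))) := hF.trans (mul_le_mul_of_nonneg_left hsq hd0)
    have h3 : N * N ≤ N * (2 * (d:ℝ) * (1 + K)) := by nlinarith
    exact le_of_mul_le_mul_left h3 hNpos

/-- (K) the neighbourhood of a vector. -/
theorem nbr_bound (α : ℝ) (h0 : 0 < α) (h1 : α < 1) : ∃ C : ℝ, 0 < C ∧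
    ∀ (d : ℕ) (S : Finset (EuclideanSpace ℝ (Fin d))),
    (∀ x ∈ S, ‖x‖ = 1) →
    (∀ x ∈ S, ∀ y ∈ S, x ≠ y → (inner ℝ x y < 0 ∨ inner ℝ x y = α)) →
    ∀ x ∈ S, ((S.filter (fun y => y ≠ x ∧ 0 < inner ℝ x y)).card : ℝ) ≤ C * ((d : ℝ) + 1) := by
  classical
  obtain ⟨C, hC, hB⟩ := bukh (1 - α ^ 2) (α - α ^ 2) (α ^ 2) (by nlinarith) (by positivity)
    (by linarith)
  refine ⟨C, hC, ?_⟩
  intro d S hn hS x hx
  have hinj : Function.Injective (fun y : EuclideanSpace ℝ (Fin d) => y - α • x) :=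
    fun y z h => by simpa using h
  have hmem : ∀ y ∈ S.filter (fun y => y ≠ x ∧ 0 < inner ℝ x y),
      y ∈ S ∧ inner ℝ x y = α := by
    intro y hy
    rw [Finset.mem_filter] at hy
    obtain ⟨hyS, hne, hp⟩ := hy
    refine ⟨hyS, ?_⟩
    rcases hS x hx y hyS (Ne.symm hne) with h | h
    · linarith
    · exact h
  have hxx : inner ℝ x x = (1:ℝ) := by rw [real_inner_self_eq_norm_sq, hn x hx]; norm_num
  have hinner : ∀ y z : EuclideanSpace ℝ (Fin d), inner ℝ x y = α → inner ℝ x z = α →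
      inner ℝ (y - α • x) (z - α • x) = inner ℝ y z - α ^ 2 := by
    intro y z hy hz
    have hy' : inner ℝ y x = α := by rw [real_inner_comm]; exact hy
    rw [inner_sub_left, inner_sub_right, inner_sub_right, inner_smul_left, inner_smul_right,
      inner_smul_left, inner_smul_right, hxx, hz, hy']
    simp
    ring
  have key := hB d ((S.filter (fun y => y ≠ x ∧ 0 < inner ℝ x y)).image (fun y => y - α • x)) ?_
  · rwa [Finset.card_image_of_injective _ hinj] at key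
  · constructor
    · intro y' hy'
      rw [Finset.mem_image] at hy'
      obtain ⟨y, hy, rfl⟩ := hy'
      obtain ⟨hyS, hya⟩ := hmem y hy
      rw [← real_inner_self_eq_norm_sq, hinner y y hya hya, real_inner_self_eq_norm_sq, hn y hyS]
      norm_num
    · intro y' hy' z' hz' hne
      rw [Finset.mem_image] at hy' hz'
      obtain ⟨y, hy, rfl⟩ := hy'
      obtain ⟨z, hz, rfl⟩ := hz'
      obtain ⟨hyS, hya⟩ := hmem y hy
      obtain ⟨hzS, hza⟩ := hmem z hz
      have hyz : y ≠ z := fun h => hne (by rw [h])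
      rw [hinner y z hya hza]
      rcases hS y hyS z hzS hyz with h | h
      · right; linarith
      · left; rw [h]

/-- quadratic upper bound for `[-1,0) ∪ {α}`-codes -/
theorem upper (α : ℝ) : ∃ C : ℝ, 0 < C ∧ ∀ (d : ℕ) (S : Finset (EuclideanSpace ℝ (Fin d))),
    (∀ x ∈ S, ‖x‖ = 1) →
    (∀ x ∈ S, ∀ y ∈ S, x ≠ y → (inner ℝ x y < 0 ∨ inner ℝ x y = α)) →
    (S.card : ℝ) ≤ C * (d : ℝ) ^ 2 := by
  classical
  -- the case `d = 0`
  have hd0 : ∀ (S : Finset (EuclideanSpace ℝ (Fin 0))), (∀ x ∈ S, ‖x‖ = 1) → S.card = 0 := by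
    intro S hS
    rw [Finset.card_eq_zero, Finset.eq_empty_iff_forall_notMem]
    intro x hx
    have h := hS x hx
    have : x = 0 := Subsingleton.elim _ _
    rw [this, norm_zero] at h
    norm_num at h
  by_cases hα : 0 < α ∧ α < 1
  · obtain ⟨C1, hC1, hK⟩ := nbr_bound α hα.1 hα.2
    refine ⟨2 * (1 + 2 * C1), by positivity, ?_⟩
    intro d S hn hS
    have h := card_le_of_pos_degree S (C1 * ((d:ℝ) + 1)) (by positivity) hn (hK d S hn hS)
    rcases Nat.eq_zero_or_pos d with hd | hd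
    · subst hd
      rw [hd0 S hn]; simp
    · have hd1 : (1:ℝ) ≤ (d:ℝ) := by exact_mod_cast hd
      have e1 : 1 + C1 * ((d:ℝ) + 1) ≤ (d:ℝ) * (1 + 2 * C1) := by nlinarith
      have e2 : 2 * (d:ℝ) * (1 + C1 * ((d:ℝ) + 1)) ≤ 2 * (d:ℝ) * ((d:ℝ) * (1 + 2 * C1)) :=
        mul_le_mul_of_nonneg_left e1 (by positivity)
      calc (S.card : ℝ) ≤ 2 * (d : ℝ) * (1 + C1 * ((d:ℝ) + 1)) := h
        _ ≤ 2 * (d:ℝ) * ((d:ℝ) * (1 + 2 * C1)) := e2
        _ = 2 * (1 + 2 * C1) * (d:ℝ) ^ 2 := by ring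
  · refine ⟨2, by norm_num, ?_⟩
    intro d S hn hS
    have hK : ∀ x ∈ S, ((S.filter (fun y => y ≠ x ∧ 0 < inner ℝ x y)).card : ℝ) ≤ 0 := by
      intro x hx
      have : S.filter (fun y => y ≠ x ∧ 0 < inner ℝ x y) = ∅ := by
        rw [Finset.filter_eq_empty_iff]
        rintro y hy ⟨hne, hp⟩
        rcases hS x hx y hy (Ne.symm hne) with h | h
        · linarith
        · apply hα
          refine ⟨by linarith, ?_⟩
          rw [← h]
          exact (inner_lt_one_iff_real_of_norm_eq_one (hn x hx) (hn y hy)).mpr (Ne.symm hne)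
      rw [this]; simp
    have h := card_le_of_pos_degree S 0 le_rfl hn hK
    rcases Nat.eq_zero_or_pos d with hd | hd
    · subst hd
      rw [hd0 S hn]; simp
    · have hd1 : (1:ℝ) ≤ (d:ℝ) := by exact_mod_cast hd
      nlinarith

end Pool.Agent.Helper17.Sph
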