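import Mathlib
import Pool.Agent.Helper17.Sph.Lower
import Pool.Agent.Helper17.Sph.Upper

set_option autoImplicit false

namespace Pool.Agent.Results.MP_480816_co.NearQuadratic

/-- a finite set of unit vectors whose distinct pairs have inner product negative or equal to `α` -/
def IsCode (α : ℝ) {d : ℕ} (S : Finset (EuclideanSpace ℝ (Fin d))) : Prop :=
  (∀ x ∈ S, ‖x‖ = 1) ∧ ∀ x ∈ S, ∀ y ∈ S, x ≠ y → (inner ℝ x y < 0 ∨ inner ℝ x y = α)

/-- The worst growth exponent of `N_{[-1,0) ∪ {α}}(d)` over all `α` is exactly `2`. -/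
theorem result :
    (∀ α : ℝ, ∃ C : ℝ, ∀ d : ℕ, ∀ S : Finset (EuclideanSpace ℝ (Fin d)), IsCode α S →
      (S.card : ℝ) ≤ C * (d : ℝ) ^ 2) ∧
    ∀ m : ℕ, 3 ≤ m → ∀ e : ℝ, e < 2 - 2 / ((⌈(m : ℝ) / 2⌉₊ : ℝ) + 1) →
      ∃ κ : ℝ, 0 < κ ∧ ∀ d : ℕ, 1 ≤ d → ∃ S : Finset (EuclideanSpace ℝ (Fin d)),
        IsCode (1 / (m : ℝ)) S ∧ κ * (d : ℝ) ^ e ≤ S.card := by
  refine ⟨fun α => ?_, fun m hm e he => ?_⟩
  · obtain ⟨C, _, hC⟩ := Helper17.Sph.upper α
    exact ⟨C, fun d S hS => hC d S hS.1 hS.2⟩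
  · have hceil : ⌈(m : ℝ) / 2⌉₊ = (m + 1) / 2 := by
      rw [Nat.ceil_eq_iff (by omega)]
      rcases Nat.even_or_odd' m with ⟨k, rfl | rfl⟩
      · have h1 : (2 * k + 1) / 2 = k := by omega
        rw [h1]
        push_cast
        constructor
        · have : ((k - 1 : ℕ) : ℝ) = (k : ℝ) - 1 := by
            rw [Nat.cast_sub (by omega)]; simp
          rw [this]; linarith
        · linarith
      · have h1 : (2 * k + 1 + 1) / 2 = k + 1 := by omega
        rw [h1]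
        push_cast
        constructor
        · have : ((k + 1 - 1 : ℕ) : ℝ) = (k : ℝ) := by
            rw [Nat.add_sub_cancel]
          linarith
        · linarith
    rw [hceil] at he
    obtain ⟨κ, hκ, h⟩ := Helper17.Sph.lower hm e he
    refine ⟨κ, hκ, fun d hd => ?_⟩
    obtain ⟨S, h1, h2, h3⟩ := h d hd
    exact ⟨S, ⟨h2, h3⟩, h1⟩

end Pool.Agent.Results.MP_480816_co.NearQuadratic
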